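import Mathlib
import Pool.Agent.H332R2.BernSize

/-!
# The integers `(2k+1)! |B_{2k}|`
-/

set_option autoImplicit false

open Finset

namespace Pool.Agent.Y935.RP

/-- `(2k+1)! |B_{2k}|` -/
noncomputable def am (k : ℕ) : ℝ := (Nat.factorial (2 * k + 1) : ℝ) * |((bernoulli (2 * k) : ℚ) : ℝ)|

/-- the same number as a natural number -/
noncomputable def amN (k : ℕ) : ℕ :=
  Nat.factorial (2 * k + 1) / (bernoulli (2 * k)).den * (bernoulli (2 * k)).num.natAbs

lemma den_dvd_fac (k : ℕ) : (bernoulli (2 * k)).den ∣ Nat.factorial (2 * k + 1) := by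
  refine (Pool.Agent.H332R2.den_dvd k).trans ?_
  rw [← Finset.prod_Ico_id_eq_factorial]
  unfold primorial
  refine Finset.prod_dvd_prod_of_subset _ _ _ ?_
  intro q hq
  rw [Finset.mem_filter, Finset.mem_range] at hq
  rw [Finset.mem_Ico]
  exact ⟨hq.2.one_lt.le, hq.1⟩

lemma am_eq (k : ℕ) : am k = (amN k : ℝ) := by
  unfold am amN
  obtain ⟨e, he⟩ := den_dvd_fac k
  have hd : ((bernoulli (2 * k)).den : ℝ) ≠ 0 := by exact_mod_cast (bernoulli (2 * k)).den_ne_zero
  have h1 : Nat.factorial (2 * k + 1) / (bernoulli (2 * k)).den = e := by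
    rw [he]; exact Nat.mul_div_cancel_left _ (bernoulli (2 * k)).den_pos
  rw [h1, he]
  have h3 : ((bernoulli (2 * k) : ℚ) : ℝ) =
      ((bernoulli (2 * k)).num : ℝ) / ((bernoulli (2 * k)).den : ℝ) := by
    have h : ((bernoulli (2 * k) : ℚ)) = (bernoulli (2 * k)).num / (bernoulli (2 * k)).den :=
      (Rat.num_div_den _).symm
    exact_mod_cast congrArg (fun q : ℚ => (q : ℝ)) h
  rw [h3, abs_div, Nat.abs_cast]
  push_cast
  rw [Nat.cast_natAbs, Int.cast_abs]
  field_simp

lemma amN_pos (k : ℕ) : 1 ≤ amN k := by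
  unfold amN
  have h1 : 0 < Nat.factorial (2 * k + 1) / (bernoulli (2 * k)).den :=
    Nat.div_pos (Nat.le_of_dvd (Nat.factorial_pos _) (den_dvd_fac k)) (bernoulli (2 * k)).den_pos
  have h2 : 0 < (bernoulli (2 * k)).num.natAbs := by
    rw [Int.natAbs_pos, Ne, Rat.num_eq_zero]
    exact Pool.Agent.H332R2.bern_ne_zero k
  exact Nat.mul_pos h1 h2

lemma one_le_am (k : ℕ) : 1 ≤ am k := by
  rw [am_eq]; exact_mod_cast amN_pos k

/-- for primes larger than `2k+1`, divisibility of the amplitude is divisibility of the numerator -/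
lemma dvd_amN {p k : ℕ} (hp : p.Prime) (hpk : 2 * k + 1 < p) :
    p ∣ amN k ↔ (p : ℤ) ∣ (bernoulli (2 * k)).num := by
  unfold amN
  rw [hp.dvd_mul, Int.natCast_dvd]
  constructor
  · rintro (h | h)
    · exfalso
      have h2 : p ∣ Nat.factorial (2 * k + 1) :=
        h.trans (Nat.div_dvd_of_dvd (den_dvd_fac k))
      have := (hp.dvd_factorial).1 h2
      omega
    · exact h
  · intro h; exact Or.inr h

/-- lower bound for the Bernoulli numbers -/
lemma abs_bern_ge (m : ℕ) (hm : m ≠ 0) :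
    2 * (Nat.factorial (2 * m) : ℝ) / (2 * Real.pi) ^ (2 * m) ≤ |((bernoulli (2 * m) : ℚ) : ℝ)| := by
  have h := hasSum_zeta_nat hm
  have h1 : (1 : ℝ) ≤ (-1 : ℝ) ^ (m + 1) * (2 : ℝ) ^ (2 * m - 1) * Real.pi ^ (2 * m) *
        bernoulli (2 * m) / (Nat.factorial (2 * m)) := by
    have h2 := le_hasSum h 1 (fun n _ => by positivity)
    simpa using h2
  have h3 : (-1 : ℝ) ^ (m + 1) * (2 : ℝ) ^ (2 * m - 1) * Real.pi ^ (2 * m) *
        bernoulli (2 * m) / (Nat.factorial (2 * m)) ≤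
      (2 : ℝ) ^ (2 * m - 1) * Real.pi ^ (2 * m) * |((bernoulli (2 * m) : ℚ) : ℝ)| /
        (Nat.factorial (2 * m)) := by
    refine (le_abs_self _).trans (le_of_eq ?_)
    rw [abs_div, abs_mul, abs_mul, abs_mul, abs_pow, abs_neg, abs_one, one_pow, one_mul,
      abs_of_pos (by positivity : (0 : ℝ) < 2 ^ (2 * m - 1)),
      abs_of_pos (by positivity : (0 : ℝ) < Real.pi ^ (2 * m)),
      abs_of_pos (by positivity : (0 : ℝ) < (Nat.factorial (2 * m) : ℝ))]
  have h4 := h1.trans h3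
  rw [le_div_iff₀ (by positivity)] at h4
  rw [div_le_iff₀ (by positivity)]
  have h2m : (2 : ℝ) ^ (2 * m) = 2 * 2 ^ (2 * m - 1) := by
    rw [← pow_succ']; congr 1; omega
  rw [mul_pow, h2m]
  nlinarith [h4]

/-- growth -/
lemma am_growth (k : ℕ) : (k : ℝ) ^ 4 * am k ≤ 5 * am (k + 1) := by
  rcases Nat.eq_zero_or_pos k with rfl | hk
  · have := one_le_am (0 + 1)
    simp only [Nat.cast_zero]
    nlinarith
  · have h1 := Pool.Agent.H332R2.abs_bern_le k hk.ne'
    have h2 := abs_bern_ge (k + 1) (by omega)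
    unfold am
    have hf1 : (Nat.factorial (2 * (k + 1)) : ℝ) =
        (2 * k + 2) * (2 * k + 1) * (Nat.factorial (2 * k) : ℝ) := by
      have : Nat.factorial (2 * (k + 1)) = (2 * k + 2) * ((2 * k + 1) * Nat.factorial (2 * k)) := by
        rw [show 2 * (k + 1) = (2 * k + 1) + 1 by ring, Nat.factorial_succ, Nat.factorial_succ]
      rw [this]; push_cast; ring
    have hf2 : (Nat.factorial (2 * (k + 1) + 1) : ℝ) =
        (2 * k + 3) * (2 * k + 2) * (Nat.factorial (2 * k + 1) : ℝ) := by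
      have : Nat.factorial (2 * (k + 1) + 1) =
          (2 * k + 3) * ((2 * k + 2) * Nat.factorial (2 * k + 1)) := by
        rw [show 2 * (k + 1) + 1 = ((2 * k + 1) + 1) + 1 by ring, Nat.factorial_succ,
          Nat.factorial_succ]
      rw [this]; push_cast; ring
    set F : ℝ := (Nat.factorial (2 * k) : ℝ) with hF
    set G : ℝ := (Nat.factorial (2 * k + 1) : ℝ) with hG
    have hF0 : 0 < F := by rw [hF]; positivity
    have hG0 : 0 < G := by rw [hG]; positivity
    set P : ℝ := (2 * Real.pi) ^ (2 * k) with hP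
    have hP0 : 0 < P := by rw [hP]; positivity
    have hP2 : (2 * Real.pi) ^ (2 * (k + 1)) = P * (4 * Real.pi ^ 2) := by
      rw [hP]; ring
    have hpi2 : Real.pi ^ 2 ≤ 10 := by
      have := Real.pi_lt_d2
      have h0 := Real.pi_pos
      nlinarith
    have hpi0 : 0 < Real.pi ^ 2 := by positivity
    have hk1 : (1 : ℝ) ≤ k := by exact_mod_cast hk
    rw [hf1, hP2] at h2
    rw [hf2]
    have hk0 : (0 : ℝ) ≤ k := by linarith
    calc (k : ℝ) ^ 4 * (G * |((bernoulli (2 * k) : ℚ) : ℝ)|)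
        ≤ (k : ℝ) ^ 4 * (G * (4 * F / P)) := by gcongr
      _ = (G * F / P) * (4 * (k : ℝ) ^ 4) := by ring
      _ ≤ (G * F / P) * (5 * ((2 * k + 3) * (2 * k + 2)) * (2 * ((2 * k + 2) * (2 * k + 1)) /
          (4 * Real.pi ^ 2))) := by
          refine mul_le_mul_of_nonneg_left ?_ (by positivity)
          rw [mul_div_assoc', le_div_iff₀ (by positivity)]
          have e1 : 4 * (k : ℝ) ^ 4 * (4 * Real.pi ^ 2) ≤ 160 * (k : ℝ) ^ 4 := by
            have : 0 ≤ (k : ℝ) ^ 4 := by positivity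
            nlinarith
          have e2 : 160 * (k : ℝ) ^ 4 ≤ 5 * ((2 * (k : ℝ) + 3) * (2 * k + 2)) *
              (2 * ((2 * k + 2) * (2 * k + 1))) := by
            have e3 : 5 * ((2 * (k : ℝ) + 3) * (2 * k + 2)) * (2 * ((2 * k + 2) * (2 * k + 1))) =
              160 * (k : ℝ) ^ 4 + 640 * k ^ 3 + 920 * k ^ 2 + 560 * k + 120 := by ring
            rw [e3]
            have : 0 ≤ 640 * (k : ℝ) ^ 3 + 920 * k ^ 2 + 560 * k + 120 := by positivity
            linarith
          linarith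
      _ = 5 * ((2 * k + 3) * (2 * k + 2) * G * (2 * ((2 * k + 2) * (2 * k + 1) * F) /
          (P * (4 * Real.pi ^ 2)))) := by
          field_simp
      _ ≤ 5 * ((2 * k + 3) * (2 * k + 2) * G * |((bernoulli (2 * (k + 1)) : ℚ) : ℝ)|) := by
          gcongr

end Pool.Agent.Y935.RP
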