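import Mathlib

/-!
# Binomial probabilities and the Poisson distribution
-/

set_option autoImplicit false

open Finset

namespace Pool.Agent.Y935.RP

/-- `Q t r n c`: the probability that `c` plus the number of successes in `n` independent trials
with success probability `t` equals `r` -/
noncomputable def Q (t : ℝ) (r : ℕ) : ℕ → ℕ → ℝ
  | 0, c => if c = r then 1 else 0
  | n + 1, c => (1 - t) * Q t r n c + t * Q t r n (c + 1)

lemma Q_nonneg {t : ℝ} (h0 : 0 ≤ t) (h1 : t ≤ 1) (r n c : ℕ) : 0 ≤ Q t r n c := by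
  induction n generalizing c with
  | zero => unfold Q; split_ifs <;> norm_num
  | succ n ih =>
    unfold Q
    exact add_nonneg (mul_nonneg (by linarith) (ih _)) (mul_nonneg h0 (ih _))

lemma Q_le {t : ℝ} (h0 : 0 ≤ t) (h1 : t ≤ 1) (r n c : ℕ) : Q t r n c ≤ 1 := by
  induction n generalizing c with
  | zero => unfold Q; split_ifs <;> norm_num
  | succ n ih =>
    unfold Q
    have := ih c
    have := ih (c + 1)
    nlinarith

lemma Q_eq (t : ℝ) (r n c : ℕ) : Q t r n c =
    if c ≤ r then (n.choose (r - c) : ℝ) * t ^ (r - c) * (1 - t) ^ (n - (r - c)) else 0 := by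
  induction n generalizing c with
  | zero =>
    unfold Q
    rcases lt_trichotomy c r with h | h | h
    · rw [if_neg h.ne, if_pos h.le, Nat.choose_eq_zero_of_lt (by omega)]
      simp
    · subst h; simp
    · rw [if_neg h.ne', if_neg (by omega)]
  | succ n ih =>
    rw [Q, ih, ih]
    rcases lt_trichotomy c r with h | h | h
    · rw [if_pos h.le, if_pos (by omega), if_pos h.le]
      obtain ⟨j, hj⟩ : ∃ j, r - c = j + 1 := ⟨r - c - 1, by omega⟩
      have hj' : r - (c + 1) = j := by omega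
      rw [hj, hj', Nat.choose_succ_succ]
      push_cast
      rcases le_or_gt (j + 1) n with hn | hn
      · obtain ⟨l, rfl⟩ : ∃ l, n = j + 1 + l := ⟨n - (j + 1), by omega⟩
        have e1 : j + 1 + l - (j + 1) = l := by omega
        have e2 : j + 1 + l - j = l + 1 := by omega
        simp only [e1, e2]
        ring
      · rw [Nat.choose_eq_zero_of_lt hn]
        push_cast
        ring
    · subst h
      rw [if_pos le_rfl, if_neg (by omega), if_pos le_rfl]
      simp [pow_succ]
      ring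
    · rw [if_neg (by omega), if_neg (by omega), if_neg (by omega)]
      ring

/-- the Poisson probabilities -/
noncomputable def poi (l : ℝ) (r : ℕ) : ℝ := Real.exp (-l) * l ^ r / (r.factorial : ℝ)

lemma poi_nonneg {l : ℝ} (hl : 0 ≤ l) (r : ℕ) : 0 ≤ poi l r := by
  unfold poi; positivity

lemma poi_le {l : ℝ} (hl : 0 ≤ l) (hl1 : l ≤ 1) (r : ℕ) : poi l r ≤ 1 := by
  unfold poi
  have h1 : Real.exp (-l) ≤ 1 := by rw [Real.exp_le_one_iff]; linarith
  have h2 : l ^ r ≤ 1 := pow_le_one₀ hl hl1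
  have h3 : (1 : ℝ) ≤ (r.factorial : ℝ) := by exact_mod_cast Nat.one_le_iff_ne_zero.2 (Nat.factorial_ne_zero r)
  rw [div_le_one (by positivity)]
  have : Real.exp (-l) * l ^ r ≤ 1 * 1 := by
    gcongr
  linarith

lemma exp_neg_lip {x y : ℝ} (hx : 0 ≤ x) (hy : 0 ≤ y) :
    |Real.exp (-x) - Real.exp (-y)| ≤ |x - y| := by
  wlog h : x ≤ y generalizing x y
  · rw [abs_sub_comm, abs_sub_comm x y]
    exact this hy hx (le_of_not_ge h)
  have h1 : Real.exp (-y) ≤ Real.exp (-x) := Real.exp_le_exp.2 (by linarith)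
  rw [abs_of_nonneg (by linarith), abs_of_nonpos (by linarith)]
  have h2 : Real.exp (-y) = Real.exp (-x) * Real.exp (-(y - x)) := by
    rw [← Real.exp_add]; congr 1; ring
  have h3 := Real.add_one_le_exp (-(y - x))
  have h4 : Real.exp (-x) ≤ 1 := by rw [Real.exp_le_one_iff]; linarith
  have h5 := Real.exp_pos (-x)
  rw [h2]
  nlinarith

lemma pow_lip {x y : ℝ} (hx : 0 ≤ x) (hx1 : x ≤ 1) (hy : 0 ≤ y) (hy1 : y ≤ 1) (n : ℕ) :
    |x ^ n - y ^ n| ≤ n * |x - y| := by
  induction n with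
  | zero => simp
  | succ n ih =>
    have h1 : x ^ (n + 1) - y ^ (n + 1) = x * (x ^ n - y ^ n) + (x - y) * y ^ n := by ring
    rw [h1]
    have h2 : |y ^ n| ≤ 1 := by
      rw [abs_of_nonneg (pow_nonneg hy n)]; exact pow_le_one₀ hy hy1
    have h3 : |x| ≤ 1 := by rw [abs_of_nonneg hx]; exact hx1
    calc |x * (x ^ n - y ^ n) + (x - y) * y ^ n|
        ≤ |x * (x ^ n - y ^ n)| + |(x - y) * y ^ n| := abs_add_le _ _
      _ = |x| * |x ^ n - y ^ n| + |x - y| * |y ^ n| := by rw [abs_mul, abs_mul]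
      _ ≤ 1 * (n * |x - y|) + |x - y| * 1 := by gcongr
      _ = ((n + 1 : ℕ) : ℝ) * |x - y| := by push_cast; ring

/-- the Poisson probabilities are Lipschitz in the parameter -/
lemma poi_lip {x y : ℝ} (hx : 0 ≤ x) (hx1 : x ≤ 1) (hy : 0 ≤ y) (hy1 : y ≤ 1) (r : ℕ) :
    |poi x r - poi y r| ≤ (r + 1) * |x - y| := by
  have hf : (1 : ℝ) ≤ (r.factorial : ℝ) := by
    exact_mod_cast Nat.one_le_iff_ne_zero.2 (Nat.factorial_ne_zero r)
  have h1 : poi x r - poi y r = (Real.exp (-x) * (x ^ r - y ^ r) +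
      (Real.exp (-x) - Real.exp (-y)) * y ^ r) / (r.factorial : ℝ) := by
    unfold poi; ring
  rw [h1, abs_div, abs_of_pos (by linarith : (0 : ℝ) < (r.factorial : ℝ)), div_le_iff₀ (by linarith)]
  have h2 : |Real.exp (-x)| ≤ 1 := by
    rw [abs_of_pos (Real.exp_pos _), Real.exp_le_one_iff]; linarith
  have h3 : |y ^ r| ≤ 1 := by
    rw [abs_of_nonneg (pow_nonneg hy r)]; exact pow_le_one₀ hy hy1
  have h4 := pow_lip hx hx1 hy hy1 r
  have h5 := exp_neg_lip hx hy
  calc |Real.exp (-x) * (x ^ r - y ^ r) + (Real.exp (-x) - Real.exp (-y)) * y ^ r|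
      ≤ |Real.exp (-x)| * |x ^ r - y ^ r| + |Real.exp (-x) - Real.exp (-y)| * |y ^ r| := by
        rw [← abs_mul, ← abs_mul]; exact abs_add_le _ _
    _ ≤ 1 * (r * |x - y|) + |x - y| * 1 := by gcongr
    _ = (r + 1) * |x - y| := by ring
    _ ≤ (r + 1) * |x - y| * (r.factorial : ℝ) := by
        have : 0 ≤ ((r : ℝ) + 1) * |x - y| := by positivity
        nlinarith

/-- binomial probabilities are close to Poisson probabilities -/
lemma Q_poi (r : ℕ) {p n : ℕ} (hp : 1 ≤ p) (hn : n ≤ p) :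
    |Q (1 / (p : ℝ)) r n 0 - poi ((n : ℝ) / p) r| ≤ (r ^ 2 + r + 2) / (p : ℝ) := by
  have hp' : (0 : ℝ) < p := by exact_mod_cast hp
  have hp1 : (1 : ℝ) ≤ p := by exact_mod_cast hp
  set y : ℝ := (n : ℝ) / p with hy
  have hy0 : 0 ≤ y := by positivity
  have hy1 : y ≤ 1 := by rw [hy, div_le_one hp']; exact_mod_cast hn
  have ht0 : 0 ≤ 1 / (p : ℝ) := by positivity
  have ht1 : 1 / (p : ℝ) ≤ 1 := by rw [div_le_one hp']; exact hp1
  have hf : (1 : ℝ) ≤ (r.factorial : ℝ) := by
    exact_mod_cast Nat.one_le_iff_ne_zero.2 (Nat.factorial_ne_zero r)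
  rw [Q_eq, if_pos (Nat.zero_le _), Nat.sub_zero]
  -- the two factors
  set A : ℝ := (n.descFactorial r : ℝ) * (1 / (p : ℝ)) ^ r with hA
  set B : ℝ := (1 - 1 / (p : ℝ)) ^ (n - r) with hB
  have hch : (n.choose r : ℝ) * (1 / (p : ℝ)) ^ r * (1 - 1 / (p : ℝ)) ^ (n - r) =
      A * B / (r.factorial : ℝ) := by
    rw [hA, hB, Nat.descFactorial_eq_factorial_mul_choose]
    push_cast
    field_simp
  have hA1 : |A - y ^ r| ≤ r ^ 2 / (p : ℝ) := by
    have hA2 : ∀ m : ℕ, 0 ≤ (n.descFactorial m : ℝ) * (1 / (p : ℝ)) ^ m ∧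
        (n.descFactorial m : ℝ) * (1 / (p : ℝ)) ^ m ≤ 1 ∧
        |(n.descFactorial m : ℝ) * (1 / (p : ℝ)) ^ m - y ^ m| ≤ m * (m : ℝ) / (p : ℝ) := by
      intro m
      induction m with
      | zero => simp
      | succ m ih =>
        obtain ⟨i0, i1, i2⟩ := ih
        have e1 : (n.descFactorial (m + 1) : ℝ) * (1 / (p : ℝ)) ^ (m + 1) =
            (((n - m : ℕ) : ℝ) / p) * ((n.descFactorial m : ℝ) * (1 / (p : ℝ)) ^ m) := by
          rw [Nat.descFactorial_succ]
          push_cast
          rw [pow_succ]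
          ring
        set w : ℝ := ((n - m : ℕ) : ℝ) / p with hw
        have hw0 : 0 ≤ w := by positivity
        have hwy : w ≤ y := by
          rw [hw, hy]; gcongr; exact Nat.sub_le _ _
        have hw1 : w ≤ 1 := hwy.trans hy1
        have hwy2 : |w - y| ≤ m / (p : ℝ) := by
          rw [abs_sub_comm, abs_of_nonneg (by linarith)]
          rw [hw, hy, ← sub_div]
          gcongr
          have : (n : ℝ) ≤ ((n - m : ℕ) : ℝ) + m := by
            have : n ≤ (n - m) + m := by omega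
            exact_mod_cast this
          linarith
        refine ⟨by rw [e1]; positivity, ?_, ?_⟩
        · rw [e1]; exact mul_le_one₀ hw1 i0 i1
        · rw [e1]
          set D : ℝ := (n.descFactorial m : ℝ) * (1 / (p : ℝ)) ^ m with hD
          have e2 : w * D - y ^ (m + 1) = w * (D - y ^ m) + (w - y) * y ^ m := by ring
          rw [e2]
          have h3 : |y ^ m| ≤ 1 := by
            rw [abs_of_nonneg (pow_nonneg hy0 m)]; exact pow_le_one₀ hy0 hy1
          calc |w * (D - y ^ m) + (w - y) * y ^ m| ≤ |w| * |D - y ^ m| + |w - y| * |y ^ m| := by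
                rw [← abs_mul, ← abs_mul]; exact abs_add_le _ _
            _ ≤ 1 * (m * (m : ℝ) / (p : ℝ)) + m / (p : ℝ) * 1 := by
                rw [abs_of_nonneg hw0]
                gcongr
            _ ≤ ((m + 1 : ℕ) : ℝ) * ((m + 1 : ℕ) : ℝ) / (p : ℝ) := by
                rw [one_mul, mul_one, ← add_div]
                gcongr
                push_cast
                nlinarith [Nat.cast_nonneg (α := ℝ) m]
    have := (hA2 r).2.2
    rw [hA]
    convert this using 2
    ring
  have hA0 : 0 ≤ A := by rw [hA]; positivity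
  have hB0 : 0 ≤ B := by rw [hB]; exact pow_nonneg (by linarith) _
  have hB1 : B ≤ 1 := by rw [hB]; exact pow_le_one₀ (by linarith) (by linarith)
  rcases lt_or_ge n r with hnr | hnr
  · -- few trials
    have hz : (n.choose r : ℝ) = 0 := by exact_mod_cast Nat.choose_eq_zero_of_lt hnr
    rw [hz, zero_mul, zero_mul, zero_sub, abs_neg, abs_of_nonneg (poi_nonneg hy0 r)]
    have h1 : y ^ r ≤ y := by
      calc y ^ r ≤ y ^ 1 := pow_le_pow_of_le_one hy0 hy1 (by omega)
        _ = y := pow_one y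
    have h2 : y ≤ r / (p : ℝ) := by
      rw [hy]; gcongr
    have h3 : poi y r ≤ y ^ r := by
      unfold poi
      rw [div_le_iff₀ (by linarith)]
      have h4 : Real.exp (-y) ≤ 1 := by rw [Real.exp_le_one_iff]; linarith
      have h5 : 0 ≤ y ^ r := pow_nonneg hy0 r
      nlinarith [Real.exp_pos (-y)]
    calc poi y r ≤ r / (p : ℝ) := h3.trans (h1.trans h2)
      _ ≤ _ := by gcongr; nlinarith [Nat.cast_nonneg (α := ℝ) r]
  · have hB2 : |B - Real.exp (-y)| ≤ (r + 1) / (p : ℝ) := by
      have e1 : Real.exp (-(((n - r : ℕ) : ℝ) / p)) = Real.exp (-(1 / (p : ℝ))) ^ (n - r) := by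
        rw [← Real.exp_nat_mul]; congr 1; ring
      have h1 : |B - Real.exp (-(((n - r : ℕ) : ℝ) / p))| ≤ 1 / (p : ℝ) := by
        rw [hB, e1]
        have h2 := pow_lip (x := 1 - 1 / (p : ℝ)) (y := Real.exp (-(1 / (p : ℝ)))) (by linarith)
          (by linarith) (Real.exp_pos _).le (by rw [Real.exp_le_one_iff]; linarith) (n - r)
        have h3 : |1 - 1 / (p : ℝ) - Real.exp (-(1 / (p : ℝ)))| ≤ (1 / (p : ℝ)) ^ 2 := by
          have h4 := Real.abs_exp_sub_one_sub_id_le (x := -(1 / (p : ℝ)))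
            (by rw [abs_neg, abs_of_nonneg ht0]; exact ht1)
          rw [abs_sub_comm]
          have e5 : Real.exp (-(1 / (p : ℝ))) - (1 - 1 / (p : ℝ)) =
            Real.exp (-(1 / (p : ℝ))) - 1 - -(1 / (p : ℝ)) := by ring
          rw [e5]
          calc _ ≤ _ := h4
            _ = _ := by ring
        have h6 : ((n - r : ℕ) : ℝ) ≤ p := by
          have : n - r ≤ p := by omega
          exact_mod_cast this
        calc _ ≤ _ := h2
          _ ≤ p * (1 / (p : ℝ)) ^ 2 := by gcongr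
          _ = 1 / (p : ℝ) := by field_simp
      have h2 : |Real.exp (-(((n - r : ℕ) : ℝ) / p)) - Real.exp (-y)| ≤ r / (p : ℝ) := by
        refine (exp_neg_lip (by positivity) hy0).trans ?_
        have h3 : ((n - r : ℕ) : ℝ) = n - r := by rw [Nat.cast_sub hnr]
        rw [h3, hy, abs_sub_comm, abs_of_nonneg]
        · rw [← sub_div]; apply le_of_eq; ring
        · rw [← sub_div]
          apply div_nonneg _ hp'.le
          have := Nat.cast_nonneg (α := ℝ) r
          linarith
      have h3 := abs_add_le (B - Real.exp (-(((n - r : ℕ) : ℝ) / p)))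
        (Real.exp (-(((n - r : ℕ) : ℝ) / p)) - Real.exp (-y))
      rw [sub_add_sub_cancel] at h3
      have h4 : (r + 1) / (p : ℝ) = 1 / (p : ℝ) + r / (p : ℝ) := by ring
      rw [h4]
      linarith
    rw [hch]
    have e2 : A * B / (r.factorial : ℝ) - poi y r =
        ((A - y ^ r) * B + y ^ r * (B - Real.exp (-y))) / (r.factorial : ℝ) := by
      unfold poi; ring
    rw [e2, abs_div, abs_of_pos (by linarith : (0 : ℝ) < (r.factorial : ℝ)),
      div_le_iff₀ (by linarith)]
    have h3 : |y ^ r| ≤ 1 := by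
      rw [abs_of_nonneg (pow_nonneg hy0 r)]; exact pow_le_one₀ hy0 hy1
    calc |(A - y ^ r) * B + y ^ r * (B - Real.exp (-y))|
        ≤ |A - y ^ r| * |B| + |y ^ r| * |B - Real.exp (-y)| := by
          rw [← abs_mul, ← abs_mul]; exact abs_add_le _ _
      _ ≤ r ^ 2 / (p : ℝ) * 1 + 1 * ((r + 1) / (p : ℝ)) := by
          rw [abs_of_nonneg hB0]
          gcongr
      _ ≤ (r ^ 2 + r + 2) / (p : ℝ) * 1 := by
          rw [mul_one, one_mul, mul_one, ← add_div]
          exact div_le_div_of_nonneg_right (by linarith) hp'.le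
      _ ≤ (r ^ 2 + r + 2) / (p : ℝ) * (r.factorial : ℝ) := by gcongr

end Pool.Agent.Y935.RP
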