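import Pool.Agent.Y935.RP.Per

/-!
# Integrals of products of a function which is constant on the fibres of a monotone integer valued
function with a function whose integrals over all intervals are small
-/

set_option autoImplicit false

open MeasureTheory Set

namespace Pool.Agent.Y935.RP

lemma cell {u v : ℝ} {s : ℝ → ℤ} (hs : Monotone s) (huv : u ≤ v) {f : ℝ → ℝ}
    (hf : ∀ x y, s x = s y → f x = f y) {c : ℝ} (hc : 0 ≤ c) (hfc : ∀ x, |f x| ≤ c)
    {h : ℝ → ℝ} (hint : IntegrableOn h (Ioc u v)) {D : ℝ}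
    (hD : ∀ I : Set ℝ, I ⊆ Ioc u v → I.OrdConnected → |∫ x in I, h x| ≤ D) :
    |∫ x in Ioc u v, f x * h x| ≤ c * D * ((s v : ℝ) - s u + 1) := by
  have hD0 : 0 ≤ D := by
    have := hD ∅ (empty_subset _) ordConnected_empty
    exact (abs_nonneg _).trans this
  set A : ℤ → Set ℝ := fun z => Ioc u v ∩ s ⁻¹' {z} with hA
  have hAo : ∀ z, (A z).OrdConnected := fun z =>
    ordConnected_Ioc.inter ((ordConnected_singleton).preimage_mono hs)
  have hAm : ∀ z, MeasurableSet (A z) := fun z => (hAo z).measurableSet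
  have hun : Ioc u v = ⋃ z ∈ Finset.Icc (s u) (s v), A z := by
    ext x
    simp only [mem_iUnion, exists_prop]
    constructor
    · intro hx
      exact ⟨s x, Finset.mem_Icc.2 ⟨hs hx.1.le, hs hx.2⟩, hx, rfl⟩
    · rintro ⟨z, _, hx, _⟩
      exact hx
  have hcell : ∀ z, IntegrableOn (fun x => f x * h x) (A z) ∧
      |∫ x in A z, f x * h x| ≤ c * D := by
    intro z
    rcases (A z).eq_empty_or_nonempty with he | ⟨x0, hx0⟩
    · rw [he]
      simp only [integrableOn_empty, Measure.restrict_empty, integral_zero_measure, abs_zero,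
        true_and]
      positivity
    · have hcongr : ∀ x ∈ A z, f x * h x = f x0 * h x := by
        intro x hx
        rw [hf x x0 (hx.2.trans hx0.2.symm)]
      have hi : IntegrableOn (fun x => f x0 * h x) (A z) :=
        (hint.mono_set inter_subset_left).const_mul _
      refine ⟨hi.congr_fun (fun x hx => (hcongr x hx).symm) (hAm z), ?_⟩
      rw [setIntegral_congr_fun (hAm z) hcongr, integral_const_mul, abs_mul]
      exact mul_le_mul (hfc x0) (hD _ inter_subset_left (hAo z)) (abs_nonneg _) hc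
  have hsum : ∫ x in Ioc u v, f x * h x = ∑ z ∈ Finset.Icc (s u) (s v), ∫ x in A z, f x * h x := by
    conv_lhs => rw [hun]
    rw [integral_biUnion_finset _ (fun z _ => hAm z) ?_ (fun z _ => (hcell z).1)]
    intro z _ w _ hzw
    rw [Function.onFun, Set.disjoint_left]
    rintro x ⟨_, hx⟩ ⟨_, hx'⟩
    exact hzw (hx.symm.trans hx')
  have hsuv : s u ≤ s v := hs huv
  rw [hsum]
  calc |∑ z ∈ Finset.Icc (s u) (s v), ∫ x in A z, f x * h x|
      ≤ ∑ z ∈ Finset.Icc (s u) (s v), |∫ x in A z, f x * h x| := Finset.abs_sum_le_sum_abs _ _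
    _ ≤ ∑ _z ∈ Finset.Icc (s u) (s v), c * D := Finset.sum_le_sum fun z _ => (hcell z).2
    _ = c * D * ((s v : ℝ) - s u + 1) := by
        rw [Finset.sum_const, Int.card_Icc, nsmul_eq_mul]
        have h1 : (((s v + 1 - s u).toNat : ℕ) : ℝ) = (s v : ℝ) - s u + 1 := by
          have h2 : (((s v + 1 - s u).toNat : ℕ) : ℤ) = s v + 1 - s u :=
            Int.toNat_of_nonneg (by omega)
          have h3 : (((s v + 1 - s u).toNat : ℕ) : ℝ) = ((s v + 1 - s u : ℤ) : ℝ) := by
            exact_mod_cast h2
          rw [h3]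
          push_cast
          ring
        rw [h1]
        ring

end Pool.Agent.Y935.RP
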