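import Pool.Agent.Y935.RP.Cell

/-!
# Automata which read the bits `m ∣ ⌈x a_k⌉`

`Chain p` is an automaton which reads at time `k` one bit, together with the conditional
probabilities `U k s` of an event if the bits are independent and equal to `true` with probability
`1 / p`. For two coprime moduli and a rapidly growing sequence `a` the integral over an interval of
the product of the indicator functions of the events is close to the product of the probabilities.
-/

set_option autoImplicit false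

open MeasureTheory Set Finset

namespace Pool.Agent.Y935.RP

/-- an automaton reading bits, with a harmonic value function -/
structure Chain (p : ℕ) where
  S : Type
  f : ℕ → S → Bool → S
  U : ℕ → S → ℝ
  U0 : ∀ k s, 0 ≤ U k s
  U1 : ∀ k s, U k s ≤ 1
  hr : ∀ k s, U k s = (1 - 1 / (p : ℝ)) * U (k + 1) (f k s false) + 1 / (p : ℝ) * U (k + 1) (f k s true)

/-- the state at time `k` -/
noncomputable def st {p : ℕ} (C : Chain p) (s0 : C.S) (a : ℕ → ℝ) (x : ℝ) : ℕ → C.S
  | 0 => s0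
  | k + 1 => C.f k (st C s0 a x k) (decide ((p : ℤ) ∣ ⌈x * a k⌉))

/-- the sum of the integers read by the automaton -/
noncomputable def ss (a : ℕ → ℝ) (lo k : ℕ) (x : ℝ) : ℤ := ∑ i ∈ Finset.Ico lo k, ⌈x * a i⌉

section

variable {a : ℕ → ℝ} (ha : ∀ k, 0 < a k) {lo : ℕ}

include ha

lemma ss_mono (k : ℕ) : Monotone (ss a lo k) := fun _ _ hxy =>
  Finset.sum_le_sum fun i _ => Int.ceil_mono (mul_le_mul_of_nonneg_right hxy (ha i).le)

lemma ss_eq {k : ℕ} {x y : ℝ} (h : ss a lo k x = ss a lo k y) :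
    ∀ i, lo ≤ i → i < k → ⌈x * a i⌉ = ⌈y * a i⌉ := by
  wlog hxy : x ≤ y generalizing x y
  · intro i hi hk
    exact (this h.symm (le_of_not_ge hxy) i hi hk).symm
  intro i hi hk
  have h1 := (Finset.sum_eq_sum_iff_of_le (s := Finset.Ico lo k) (f := fun i => ⌈x * a i⌉)
    (g := fun i => ⌈y * a i⌉) (fun i _ => Int.ceil_mono (mul_le_mul_of_nonneg_right hxy (ha i).le))).1 h
  exact h1 i (Finset.mem_Ico.2 ⟨hi, hk⟩)

lemma st_eq {p : ℕ} (C : Chain p) (s0 : C.S) (hlo : ∀ k < lo, ∀ s b, C.f k s b = s) {k : ℕ}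
    {x y : ℝ} (h : ss a lo k x = ss a lo k y) : st C s0 a x k = st C s0 a y k := by
  have h1 := ss_eq ha h
  have h2 : ∀ j ≤ k, st C s0 a x j = st C s0 a y j := by
    intro j
    induction j with
    | zero => intro _; rfl
    | succ j ih =>
      intro hj
      rw [st, st, ih (by omega)]
      rcases lt_or_ge j lo with hjl | hjl
      · rw [hlo j hjl, hlo j hjl]
      · rw [h1 j hjl (by omega)]
  exact h2 k le_rfl

omit ha in
lemma meas_of_fibre {s : ℝ → ℤ} (hs : Measurable s) {f : ℝ → ℝ}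
    (hf : ∀ x y, s x = s y → f x = f y) : Measurable f := by
  have h1 : f = (fun z : ℤ => f (Function.invFun s z)) ∘ s := by
    funext x
    refine hf _ _ ?_
    exact (Function.invFun_eq (f := s) ⟨x, rfl⟩).symm
  rw [h1]
  exact (measurable_of_countable _).comp hs

omit ha in
lemma ss_width (k : ℕ) (u v : ℝ) :
    ((ss a lo k v : ℝ) - ss a lo k u + 1) ≤
      1 + ∑ i ∈ Finset.Ico lo k, ((v - u) * a i + 1) := by
  unfold ss
  push_cast
  rw [← Finset.sum_sub_distrib, add_comm]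
  gcongr with i _
  have h1 := Int.ceil_lt_add_one (v * a i)
  have h2 := Int.le_ceil (u * a i)
  have : (v - u) * a i = v * a i - u * a i := by ring
  linarith

end

lemma gg_mul {p q : ℕ} (h : p.Coprime q) (y : ℝ) : gg p y * gg q y = gg (p * q) y := by
  have h1 : ((p * q : ℕ) : ℤ) ∣ ⌈y⌉ ↔ (p : ℤ) ∣ ⌈y⌉ ∧ (q : ℤ) ∣ ⌈y⌉ := by
    push_cast
    constructor
    · intro hd
      exact ⟨(dvd_mul_right _ _).trans hd, (dvd_mul_left _ _).trans hd⟩
    · rintro ⟨h1, h2⟩
      exact (Nat.isCoprime_iff_coprime.2 h).mul_dvd h1 h2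
  unfold gg
  by_cases hp : (p : ℤ) ∣ ⌈y⌉
  · by_cases hq : (q : ℤ) ∣ ⌈y⌉
    · rw [if_pos hp, if_pos hq, if_pos (h1.2 ⟨hp, hq⟩), one_mul]
    · rw [if_pos hp, if_neg hq, if_neg (fun hh => hq (h1.1 hh).2), mul_zero]
  · rw [if_neg hp, zero_mul, if_neg (fun hh => hp (h1.1 hh).1)]

lemma U_bit {p : ℕ} (C : Chain p) (s0 : C.S) (a : ℕ → ℝ) (x : ℝ) (k : ℕ) :
    C.U (k + 1) (st C s0 a x (k + 1)) = C.U (k + 1) (C.f k (st C s0 a x k) false) +
      (C.U (k + 1) (C.f k (st C s0 a x k) true) - C.U (k + 1) (C.f k (st C s0 a x k) false)) *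
        gg p (x * a k) := by
  rw [st]
  unfold gg
  by_cases h : (p : ℤ) ∣ ⌈x * a k⌉
  · rw [if_pos h, decide_eq_true h]; ring
  · rw [if_neg h, decide_eq_false h]; ring

section

variable {a : ℕ → ℝ} (ha : ∀ k, 0 < a k) {lo : ℕ} {p q : ℕ} (hp : 1 ≤ p) (hq : 1 ≤ q)
  (hpq : p.Coprime q) (C : Chain p) (C' : Chain q) (s0 : C.S) (s0' : C'.S)
  (hlo : ∀ k < lo, ∀ s b, C.f k s b = s) (hlo' : ∀ k < lo, ∀ s b, C'.f k s b = s)

/-- the product of the two values at time `k` -/
noncomputable def FF (a : ℕ → ℝ) (k : ℕ) (x : ℝ) : ℝ :=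
  C.U k (st C s0 a x k) * C'.U k (st C' s0' a x k)

include ha hlo hlo' in
lemma FF_meas (k : ℕ) : Measurable (FF C C' s0 s0' a k) := by
  refine meas_of_fibre (ss_mono ha (lo := lo) k).measurable fun x y h => ?_
  unfold FF
  rw [st_eq ha C s0 hlo h, st_eq ha C' s0' hlo' h]

omit s0 s0' in
lemma FF_bdd (s0 : C.S) (s0' : C'.S) (k : ℕ) (x : ℝ) : |FF C C' s0 s0' a k x| ≤ 1 := by
  unfold FF
  rw [abs_mul, abs_of_nonneg (C.U0 _ _), abs_of_nonneg (C'.U0 _ _)]
  exact mul_le_one₀ (C.U1 _ _) (C'.U0 _ _) (C'.U1 _ _)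

include ha hlo hlo' in
lemma FF_int (k : ℕ) (u v : ℝ) : IntegrableOn (FF C C' s0 s0' a k) (Set.Ioc u v) := by
  refine Measure.integrableOn_of_bounded (M := 1) (by simp) 
    (FF_meas ha C C' s0 s0' hlo hlo' k).aestronglyMeasurable ?_
  exact Filter.Eventually.of_forall fun x => by
    rw [Real.norm_eq_abs]; exact FF_bdd C C' s0 s0' k x


include ha hlo hlo' hp hq hpq in
/-- one step -/
lemma FF_step {k : ℕ} (hk : lo ≤ k) {u v : ℝ} (huv : u ≤ v) :
    |(∫ x in Set.Ioc u v, FF C C' s0 s0' a (k + 1) x) - ∫ x in Set.Ioc u v, FF C C' s0 s0' a k x| ≤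
      3 * ((1 + ∑ i ∈ Finset.Ico lo k, ((v - u) * a i + 1)) / a k) := by
  set A : ℝ → ℝ := fun x => C.U (k + 1) (C.f k (st C s0 a x k) false) with hA
  set B : ℝ → ℝ := fun x => C.U (k + 1) (C.f k (st C s0 a x k) true) with hB
  set A' : ℝ → ℝ := fun x => C'.U (k + 1) (C'.f k (st C' s0' a x k) false) with hA'
  set B' : ℝ → ℝ := fun x => C'.U (k + 1) (C'.f k (st C' s0' a x k) true) with hB'
  have fA : ∀ x y, ss a lo k x = ss a lo k y → A x = A y := fun x y h => by
    simp only [hA]; rw [st_eq ha C s0 hlo h]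
  have fB : ∀ x y, ss a lo k x = ss a lo k y → B x = B y := fun x y h => by
    simp only [hB]; rw [st_eq ha C s0 hlo h]
  have fA' : ∀ x y, ss a lo k x = ss a lo k y → A' x = A' y := fun x y h => by
    simp only [hA']; rw [st_eq ha C' s0' hlo' h]
  have fB' : ∀ x y, ss a lo k x = ss a lo k y → B' x = B' y := fun x y h => by
    simp only [hB']; rw [st_eq ha C' s0' hlo' h]
  have bA : ∀ x, 0 ≤ A x ∧ A x ≤ 1 := fun x => ⟨C.U0 _ _, C.U1 _ _⟩
  have bB : ∀ x, 0 ≤ B x ∧ B x ≤ 1 := fun x => ⟨C.U0 _ _, C.U1 _ _⟩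
  have bA' : ∀ x, 0 ≤ A' x ∧ A' x ≤ 1 := fun x => ⟨C'.U0 _ _, C'.U1 _ _⟩
  have bB' : ∀ x, 0 ≤ B' x ∧ B' x ≤ 1 := fun x => ⟨C'.U0 _ _, C'.U1 _ _⟩
  have hpq1 : 1 ≤ p * q := Nat.mul_pos hp hq
  -- the difference
  have hdiff : ∀ x, FF C C' s0 s0' a (k + 1) x - FF C C' s0 s0' a k x =
      ((B x - A x) * A' x) * hh p (x * a k) + (A x * (B' x - A' x)) * hh q (x * a k) +
        ((B x - A x) * (B' x - A' x)) * hh (p * q) (x * a k) := by
    intro x
    unfold FF
    rw [U_bit, U_bit, C.hr k, C'.hr k]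
    unfold hh
    rw [← gg_mul hpq]
    simp only [hA, hB, hA', hB']
    have h1 : (p : ℝ) ≠ 0 := by positivity
    have h2 : (q : ℝ) ≠ 0 := by positivity
    push_cast
    field_simp
    ring
  have hD : ∀ m : ℕ, 1 ≤ m → ∀ I : Set ℝ, I ⊆ Set.Ioc u v → I.OrdConnected →
      |∫ x in I, hh m (x * a k)| ≤ 1 / a k := fun m hm I hI hIo =>
    hh_ordConnected hm (ha k) hIo (hI.trans Set.Ioc_subset_Icc_self)
  have hhi : ∀ m : ℕ, 1 ≤ m → IntegrableOn (fun x => hh m (x * a k)) (Set.Ioc u v) := by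
    intro m hm
    refine Measure.integrableOn_of_bounded (M := 1) (by simp)
      ((hh_meas m).comp (measurable_id.mul_const _)).aestronglyMeasurable ?_
    exact Filter.Eventually.of_forall fun x => by
      rw [Real.norm_eq_abs]; exact abs_hh_le hm _
  have hprod : ∀ (m : ℕ), 1 ≤ m → ∀ g : ℝ → ℝ, (∀ x y, ss a lo k x = ss a lo k y → g x = g y) →
      (∀ x, |g x| ≤ 1) → IntegrableOn (fun x => g x * hh m (x * a k)) (Set.Ioc u v) ∧
      |∫ x in Set.Ioc u v, g x * hh m (x * a k)| ≤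
        (1 + ∑ i ∈ Finset.Ico lo k, ((v - u) * a i + 1)) / a k := by
    intro m hm g hg hg1
    constructor
    · refine Measure.integrableOn_of_bounded (M := 1) (by simp)
        ((meas_of_fibre (ss_mono ha (lo := lo) k).measurable hg).mul
          ((hh_meas m).comp (measurable_id.mul_const _))).aestronglyMeasurable ?_
      exact Filter.Eventually.of_forall fun x => by
        rw [Real.norm_eq_abs, abs_mul]
        exact mul_le_one₀ (hg1 x) (abs_nonneg _) (abs_hh_le hm _)
    · have h1 := cell (ss_mono ha (lo := lo) k) huv hg zero_le_one hg1 (hhi m hm) (hD m hm)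
      refine h1.trans ?_
      rw [one_mul, one_div, inv_mul_eq_div]
      exact div_le_div_of_nonneg_right (ss_width k u v) (ha k).le
  have h1 := hprod p hp (fun x => (B x - A x) * A' x)
    (fun x y h => by rw [fA x y h, fB x y h, fA' x y h])
    (fun x => by
      rw [abs_mul]
      refine mul_le_one₀ ?_ (abs_nonneg _) ?_
      · rw [abs_le]; constructor <;> linarith [(bA x).1, (bA x).2, (bB x).1, (bB x).2]
      · rw [abs_le]; constructor <;> linarith [(bA' x).1, (bA' x).2])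
  have h2 := hprod q hq (fun x => A x * (B' x - A' x))
    (fun x y h => by rw [fA x y h, fB' x y h, fA' x y h])
    (fun x => by
      rw [abs_mul]
      refine mul_le_one₀ ?_ (abs_nonneg _) ?_
      · rw [abs_le]; constructor <;> linarith [(bA x).1, (bA x).2]
      · rw [abs_le]; constructor <;> linarith [(bA' x).1, (bA' x).2, (bB' x).1, (bB' x).2])
  have h3 := hprod (p * q) hpq1 (fun x => (B x - A x) * (B' x - A' x))
    (fun x y h => by rw [fA x y h, fB x y h, fA' x y h, fB' x y h])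
    (fun x => by
      rw [abs_mul]
      refine mul_le_one₀ ?_ (abs_nonneg _) ?_
      · rw [abs_le]; constructor <;> linarith [(bA x).1, (bA x).2, (bB x).1, (bB x).2]
      · rw [abs_le]; constructor <;> linarith [(bA' x).1, (bA' x).2, (bB' x).1, (bB' x).2])
  rw [← integral_sub (FF_int ha C C' s0 s0' hlo hlo' _ u v) (FF_int ha C C' s0 s0' hlo hlo' _ u v)]
  have e1 : ∫ x in Set.Ioc u v, (FF C C' s0 s0' a (k + 1) x - FF C C' s0 s0' a k x) =
      (∫ x in Set.Ioc u v, ((B x - A x) * A' x) * hh p (x * a k)) +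
      (∫ x in Set.Ioc u v, (A x * (B' x - A' x)) * hh q (x * a k)) +
      ∫ x in Set.Ioc u v, ((B x - A x) * (B' x - A' x)) * hh (p * q) (x * a k) := by
    rw [← integral_add h1.1 h2.1]
    have e2 := integral_add (h1.1.add h2.1) h3.1
    simp only [Pi.add_apply] at e2
    rw [← e2]
    exact integral_congr_ae (Filter.Eventually.of_forall hdiff)
  rw [e1]
  have h4 := abs_add_le ((∫ x in Set.Ioc u v, ((B x - A x) * A' x) * hh p (x * a k)) +
      (∫ x in Set.Ioc u v, (A x * (B' x - A' x)) * hh q (x * a k)))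
      (∫ x in Set.Ioc u v, ((B x - A x) * (B' x - A' x)) * hh (p * q) (x * a k))
  have h5 := abs_add_le (∫ x in Set.Ioc u v, ((B x - A x) * A' x) * hh p (x * a k))
      (∫ x in Set.Ioc u v, (A x * (B' x - A' x)) * hh q (x * a k))
  linarith [h1.2, h2.2, h3.2]

include ha hlo hlo' hp hq hpq in
/-- all steps -/
theorem FF_all (K : ℕ) (hK : lo ≤ K) {u v : ℝ} (huv : u ≤ v) :
    |(∫ x in Set.Ioc u v, FF C C' s0 s0' a K x) - (v - u) * (C.U lo s0 * C'.U lo s0')| ≤
      3 * ∑ k ∈ Finset.Ico lo K, (1 + ∑ i ∈ Finset.Ico lo k, ((v - u) * a i + 1)) / a k := by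
  induction K, hK using Nat.le_induction with
  | base =>
    have h1 : ∀ x, ∀ k ≤ lo, st C s0 a x k = s0 := by
      intro x k
      induction k with
      | zero => intro _; rfl
      | succ k ih => intro hk; rw [st, ih (by omega), hlo k (by omega)]
    have h2 : ∀ x, ∀ k ≤ lo, st C' s0' a x k = s0' := by
      intro x k
      induction k with
      | zero => intro _; rfl
      | succ k ih => intro hk; rw [st, ih (by omega), hlo' k (by omega)]
    have h3 : ∀ x, FF C C' s0 s0' a lo x = C.U lo s0 * C'.U lo s0' := by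
      intro x
      unfold FF
      rw [h1 x lo le_rfl, h2 x lo le_rfl]
    simp only [h3]
    rw [setIntegral_const, smul_eq_mul]
    simp [huv]
  | succ K hK ih =>
    rw [Finset.sum_Ico_succ_top hK]
    have h1 := FF_step ha hp hq hpq C C' s0 s0' hlo hlo' hK huv
    have h2 := abs_add_le ((∫ x in Set.Ioc u v, FF C C' s0 s0' a (K + 1) x) -
      ∫ x in Set.Ioc u v, FF C C' s0 s0' a K x)
      ((∫ x in Set.Ioc u v, FF C C' s0 s0' a K x) - (v - u) * (C.U lo s0 * C'.U lo s0'))
    rw [sub_add_sub_cancel] at h2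
    linarith

end

end Pool.Agent.Y935.RP
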