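import Mathlib

/-!
# The error term for rapidly growing sequences
-/

set_option autoImplicit false

open Finset

namespace Pool.Agent.Y935.RP

section

variable {a : ℕ → ℝ} (h1 : ∀ k, 1 ≤ a k) {c : ℝ} (hc : 0 ≤ c)
  (hg : ∀ k : ℕ, (k : ℝ) ^ 4 * a k ≤ c * a (k + 1))

include h1 hc hg

/-- partial sums are controlled by the last term -/
lemma sum_le_last : ∃ C : ℝ, 0 ≤ C ∧ ∀ k, ∑ i ∈ range (k + 1), a i ≤ C * a k := by
  obtain ⟨k0, hk0⟩ := exists_nat_ge (2 * c)
  have ha0 : ∀ k, 0 ≤ a k := fun k => zero_le_one.trans (h1 k)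
  refine ⟨2 + ∑ i ∈ range (k0 + 2), a i, by
    have := Finset.sum_nonneg (s := range (k0 + 2)) (fun i _ => ha0 i); linarith, ?_⟩
  set C : ℝ := 2 + ∑ i ∈ range (k0 + 2), a i with hC
  have hC2 : 2 ≤ C := by
    have := Finset.sum_nonneg (s := range (k0 + 2)) (fun i _ => ha0 i); rw [hC]; linarith
  intro k
  rcases le_or_gt k (k0 + 1) with h | h
  · have h2 : ∑ i ∈ range (k + 1), a i ≤ ∑ i ∈ range (k0 + 2), a i :=
      Finset.sum_le_sum_of_subset_of_nonneg (fun i hi => by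
        simp only [Finset.mem_range] at *; omega) (fun i _ _ => ha0 i)
    have h3 : C * 1 ≤ C * a k := by gcongr; exact h1 k
    linarith
  · obtain ⟨d, rfl⟩ : ∃ d, k = k0 + 1 + d := ⟨k - (k0 + 1), by omega⟩
    clear h
    induction d with
    | zero =>
      have h3 : C * 1 ≤ C * a (k0 + 1) := by gcongr; exact h1 _
      simp only [add_zero]
      have : ∑ i ∈ range (k0 + 1 + 1), a i = ∑ i ∈ range (k0 + 2), a i := rfl
      rw [this]
      linarith
    | succ d ih =>
      rw [Finset.sum_range_succ]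
      have e1 : k0 + 1 + (d + 1) = (k0 + 1 + d) + 1 := by ring
      rw [e1]
      set n := k0 + 1 + d with hn
      have h4 : (2 * c) * a n ≤ c * a (n + 1) := by
        refine le_trans ?_ (hg n)
        have h5 : 2 * c ≤ (n : ℝ) ^ 4 := by
          have h6 : (k0 : ℝ) + 1 ≤ n := by
            rw [hn]; push_cast
            have : (0 : ℝ) ≤ d := Nat.cast_nonneg d
            linarith
          have h7 : (1 : ℝ) ≤ n := by
            have : (0 : ℝ) ≤ k0 := Nat.cast_nonneg k0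
            linarith
          have h8 : (n : ℝ) ≤ (n : ℝ) ^ 4 := by
            calc (n : ℝ) = (n : ℝ) ^ 1 := (pow_one _).symm
              _ ≤ (n : ℝ) ^ 4 := pow_le_pow_right₀ h7 (by norm_num)
          linarith
        gcongr
        exact ha0 n
      rcases hc.lt_or_eq with hc0 | hc0
      · have h5 : 2 * a n ≤ a (n + 1) := by
          have : c * (2 * a n) ≤ c * a (n + 1) := by linarith
          exact le_of_mul_le_mul_left this hc0
        have h6 : ∑ i ∈ range (n + 1), a i ≤ C * a n := ih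
        have h7 : C * (2 * a n) ≤ C * a (n + 1) := by gcongr
        have h8 : 2 * a (n + 1) ≤ C * a (n + 1) := by
          have := ha0 (n + 1)
          gcongr
        linarith
      · exfalso
        have h9 := hg n
        rw [← hc0] at h9
        have h10 : (1 : ℝ) ≤ n := by
          rw [hn]; push_cast
          have : (0 : ℝ) ≤ d := Nat.cast_nonneg d
          have : (0 : ℝ) ≤ k0 := Nat.cast_nonneg k0
          linarith
        have h11 : 0 < (n : ℝ) ^ 4 * a n := by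
          have := h1 n
          positivity
        linarith

/-- each term of the error is at most `C / (k-1)^4` -/
lemma term_le : ∃ C : ℝ, 0 ≤ C ∧ ∀ L k : ℕ, L ≤ k + 1 →
    (1 + ∑ i ∈ Finset.Ico L (k + 1), (1 * a i + 1)) / a (k + 1) * (k : ℝ) ^ 4 ≤ C := by
  obtain ⟨C, hC0, hC⟩ := sum_le_last h1 hc hg
  have ha0 : ∀ k, 0 ≤ a k := fun k => zero_le_one.trans (h1 k)
  have hap : ∀ k, 0 < a k := fun k => lt_of_lt_of_le zero_lt_one (h1 k)
  refine ⟨(1 + 2 * C) * c, by positivity, fun L k hL => ?_⟩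
  have e1 : ∑ i ∈ Finset.Ico L (k + 1), (1 * a i + 1) ≤ 2 * (C * a k) := by
    calc ∑ i ∈ Finset.Ico L (k + 1), (1 * a i + 1) ≤ ∑ i ∈ Finset.Ico L (k + 1), 2 * a i :=
          Finset.sum_le_sum fun i _ => by linarith [h1 i]
      _ ≤ ∑ i ∈ range (k + 1), 2 * a i := Finset.sum_le_sum_of_subset_of_nonneg (fun i hi => by
          simp only [Finset.mem_range, Finset.mem_Ico] at *; omega)
            (fun i _ _ => mul_nonneg zero_le_two (ha0 i))
      _ = 2 * ∑ i ∈ range (k + 1), a i := by rw [Finset.mul_sum]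
      _ ≤ 2 * (C * a k) := by gcongr; exact hC k
  have e2 : 1 + ∑ i ∈ Finset.Ico L (k + 1), (1 * a i + 1) ≤ (1 + 2 * C) * a k := by
    have := h1 k
    nlinarith
  rw [div_mul_eq_mul_div, div_le_iff₀ (hap _)]
  calc (1 + ∑ i ∈ Finset.Ico L (k + 1), (1 * a i + 1)) * (k : ℝ) ^ 4
      ≤ ((1 + 2 * C) * a k) * (k : ℝ) ^ 4 := by gcongr
    _ = (1 + 2 * C) * ((k : ℝ) ^ 4 * a k) := by ring
    _ ≤ (1 + 2 * C) * (c * a (k + 1)) := mul_le_mul_of_nonneg_left (hg k) (by positivity)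
    _ = (1 + 2 * C) * c * a (k + 1) := by ring

/-- the total error -/
lemma err_le : ∃ C : ℝ, 0 ≤ C ∧ ∀ L K : ℕ, 2 ≤ L →
    3 * ∑ k ∈ Finset.Ico L K, (1 + ∑ i ∈ Finset.Ico L k, (1 * a i + 1)) / a k ≤
      C / (L : ℝ) ^ 3 := by
  obtain ⟨C, hC0, hC⟩ := term_le h1 hc hg
  have hap : ∀ k, 0 < a k := fun k => lt_of_lt_of_le zero_lt_one (h1 k)
  refine ⟨3 * (C * 16), by positivity, fun L K hL => ?_⟩
  -- telescoping
  have key : ∀ K, L ≤ K → ∑ k ∈ Finset.Ico L K, (1 + ∑ i ∈ Finset.Ico L k, (1 * a i + 1)) / a k ≤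
      2 * C * (1 / ((L : ℝ) - 1) ^ 3 - 1 / ((K : ℝ) - 1) ^ 3) := by
    intro K hK
    induction K, hK using Nat.le_induction with
    | base => simp
    | succ K hK ih =>
      rw [Finset.sum_Ico_succ_top hK]
      obtain ⟨n, rfl⟩ : ∃ n, K = n + 1 + 1 := ⟨K - 2, by omega⟩
      have h2 := hC L (n + 1) (by omega)
      have hn : (1 : ℝ) ≤ ((n + 1 : ℕ) : ℝ) := by
        push_cast
        have : (0 : ℝ) ≤ n := Nat.cast_nonneg n
        linarith
      set m : ℝ := ((n + 1 : ℕ) : ℝ) with hm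
      have e1 : ((n + 1 + 1 : ℕ) : ℝ) - 1 = m := by rw [hm]; push_cast; ring
      have e2 : ((n + 1 + 1 + 1 : ℕ) : ℝ) - 1 = m + 1 := by rw [hm]; push_cast; ring
      rw [e1] at ih
      rw [e2]
      have h3 : (1 + ∑ i ∈ Finset.Ico L (n + 1 + 1), (1 * a i + 1)) / a (n + 1 + 1) ≤ C / m ^ 4 := by
        rw [le_div_iff₀ (by positivity)]
        exact h2
      have h4 : C / m ^ 4 ≤ 2 * C * (1 / m ^ 3 - 1 / (m + 1) ^ 3) := by
        have h5 : 1 / m ^ 4 ≤ 2 * (1 / m ^ 3 - 1 / (m + 1) ^ 3) := by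
          rw [div_sub_div _ _ (by positivity) (by positivity), ← mul_div_assoc,
            div_le_div_iff₀ (by positivity) (by positivity)]
          have h6 : 0 ≤ m - 1 := by linarith
          have h7 : (0:ℝ) ≤ m ^ 3 * (m - 1) := by positivity
          nlinarith [pow_pos (by linarith : 0 < m) 3, pow_pos (by linarith : 0 < m) 4,
            mul_nonneg (pow_nonneg (by linarith : 0 ≤ m) 4) h6,
            mul_nonneg (pow_nonneg (by linarith : 0 ≤ m) 5) h6,
            mul_nonneg (pow_nonneg (by linarith : 0 ≤ m) 3) h6]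
        calc C / m ^ 4 = C * (1 / m ^ 4) := by ring
          _ ≤ C * (2 * (1 / m ^ 3 - 1 / (m + 1) ^ 3)) := by gcongr
          _ = _ := by ring
      calc _ ≤ 2 * C * (1 / ((L : ℝ) - 1) ^ 3 - 1 / m ^ 3) +
            2 * C * (1 / m ^ 3 - 1 / (m + 1) ^ 3) := add_le_add ih (h3.trans h4)
        _ = _ := by ring
  rcases le_or_gt L K with hK | hK
  · have h2 := key K hK
    have hL' : (2 : ℝ) ≤ L := by exact_mod_cast hL
    have hK' : (2 : ℝ) ≤ K := by exact_mod_cast hL.trans hK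
    have h3 : 0 ≤ 1 / ((K : ℝ) - 1) ^ 3 := by
      apply div_nonneg zero_le_one (pow_nonneg (by linarith) _)
    have h4 : 1 / ((L : ℝ) - 1) ^ 3 ≤ 8 / (L : ℝ) ^ 3 := by
      rw [div_le_div_iff₀ (pow_pos (by linarith) _) (by positivity)]
      have h5 : (L : ℝ) ≤ 2 * ((L : ℝ) - 1) := by linarith
      calc 1 * (L : ℝ) ^ 3 ≤ (2 * ((L : ℝ) - 1)) ^ 3 := by rw [one_mul]; gcongr
        _ = 8 * ((L : ℝ) - 1) ^ 3 := by ring
    calc _ ≤ 3 * (2 * C * (1 / ((L : ℝ) - 1) ^ 3 - 1 / ((K : ℝ) - 1) ^ 3)) := by gcongr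
      _ ≤ 3 * (2 * C * (8 / (L : ℝ) ^ 3)) := by
          gcongr
          linarith
      _ = _ := by ring
  · rw [Finset.Ico_eq_empty (by omega)]
    simp only [Finset.sum_empty, mul_zero]
    positivity

end

end Pool.Agent.Y935.RP
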