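import Mathlib

/-!
# Truncation lengths
-/

set_option autoImplicit false

open Finset MeasureTheory Filter

namespace Pool.Agent.Y935.RP

/-- the truncation: about `n ^ (2/5)` -/
noncomputable def Lf (n : ℕ) : ℕ := ⌈((n : ℝ) + 1) ^ ((2 : ℝ) / 5)⌉₊ + 2

lemma two_le_Lf (n : ℕ) : 2 ≤ Lf n := by unfold Lf; omega

lemma Lf_mono {n k : ℕ} (h : n ≤ k) : Lf n ≤ Lf k := by
  unfold Lf
  gcongr

lemma Lf_ge (n : ℕ) : ((n : ℝ) + 1) ^ ((2 : ℝ) / 5) ≤ Lf n := by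
  unfold Lf
  push_cast
  have := Nat.le_ceil (((n : ℝ) + 1) ^ ((2 : ℝ) / 5))
  linarith

lemma Lf_le (n : ℕ) : (Lf n : ℝ) ≤ 4 * ((n : ℝ) + 1) ^ ((2 : ℝ) / 5) := by
  unfold Lf
  push_cast
  have h0 : (0 : ℝ) ≤ n := Nat.cast_nonneg n
  have h1 : (1 : ℝ) ≤ ((n : ℝ) + 1) ^ ((2 : ℝ) / 5) :=
    Real.one_le_rpow (by linarith) (by norm_num)
  have h2 := (Nat.ceil_lt_add_one (a := ((n : ℝ) + 1) ^ ((2 : ℝ) / 5)) (by linarith)).le
  linarith

lemma summable_rp {s : ℝ} (hs : 1 < s) : Summable (fun n : ℕ => 1 / ((n : ℝ) + 1) ^ s) := by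
  have h2 : Summable (fun n : ℕ => 1 / (n : ℝ) ^ s) := Real.summable_one_div_nat_rpow.2 hs
  have h3 := (summable_nat_add_iff (f := fun n : ℕ => 1 / (n : ℝ) ^ s) 1).mpr h2
  refine h3.congr fun n => ?_
  push_cast
  rfl

lemma Lf_cube : Summable (fun n : ℕ => 1 / (Lf n : ℝ) ^ 3) := by
  refine Summable.of_nonneg_of_le (fun n => by positivity) (fun n => ?_)
    (summable_rp (s := 6 / 5) (by norm_num))
  have h0 : (0 : ℝ) < (n : ℝ) + 1 := by positivity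
  have h1 : ((n : ℝ) + 1) ^ ((6 : ℝ) / 5) = (((n : ℝ) + 1) ^ ((2 : ℝ) / 5)) ^ 3 := by
    rw [← Real.rpow_natCast, ← Real.rpow_mul h0.le]
    norm_num
  rw [h1]
  apply one_div_le_one_div_of_le (by positivity)
  gcongr
  exact Lf_ge n

lemma Lf_sum : Summable (fun n : ℕ => (Lf n : ℝ) / n / Real.sqrt ((n : ℝ) + 1)) := by
  refine Summable.of_nonneg_of_le (fun n => by positivity) (fun n => ?_)
    ((summable_rp (s := 11 / 10) (by norm_num)).mul_left 8)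
  have h0 : (0 : ℝ) < (n : ℝ) + 1 := by positivity
  rcases Nat.eq_zero_or_pos n with hn | hn
  · subst hn
    simp
  have hn1 : (1 : ℝ) ≤ n := by exact_mod_cast hn
  have h1 : (Lf n : ℝ) / n ≤ 8 * (((n : ℝ) + 1) ^ ((2 : ℝ) / 5) / ((n : ℝ) + 1)) := by
    rw [← mul_div_assoc, div_le_div_iff₀ (by linarith) h0]
    have h2 := Lf_le n
    have h3 : 0 < ((n : ℝ) + 1) ^ ((2 : ℝ) / 5) := by positivity
    calc (Lf n : ℝ) * ((n : ℝ) + 1) ≤ (4 * ((n : ℝ) + 1) ^ ((2 : ℝ) / 5)) * (2 * n) := by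
          gcongr
          linarith
      _ = 8 * ((n : ℝ) + 1) ^ ((2 : ℝ) / 5) * n := by ring
  calc (Lf n : ℝ) / n / Real.sqrt ((n : ℝ) + 1)
      ≤ 8 * (((n : ℝ) + 1) ^ ((2 : ℝ) / 5) / ((n : ℝ) + 1)) / Real.sqrt ((n : ℝ) + 1) := by gcongr
    _ = 8 * (1 / ((n : ℝ) + 1) ^ ((11 : ℝ) / 10)) := by
        rw [mul_div_assoc]
        congr 1
        have h4 : Real.sqrt ((n : ℝ) + 1) = ((n : ℝ) + 1) ^ ((1 : ℝ) / 2) := Real.sqrt_eq_rpow _
        rw [h4, div_div, div_eq_div_iff (by positivity) (by positivity), one_mul]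
        have h5 : ((n : ℝ) + 1) * ((n : ℝ) + 1) ^ ((1 : ℝ) / 2) = ((n : ℝ) + 1) ^ ((3 : ℝ) / 2) := by
          nth_rewrite 1 [← Real.rpow_one ((n : ℝ) + 1)]
          rw [← Real.rpow_add h0]
          norm_num
        rw [h5, ← Real.rpow_add h0]
        norm_num

/-- bounded weighted sums give square root bounds -/
lemma sqrt_of_weighted {z : ℕ → ℝ} (h0 : ∀ n, 0 ≤ z n) {B : ℝ}
    (hB : ∀ N, ∑ n ∈ range N, z n / Real.sqrt ((n : ℝ) + 1) ≤ B) (N : ℕ) :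
    ∑ n ∈ range N, z n ≤ B * Real.sqrt ((N : ℝ) + 1) := by
  calc ∑ n ∈ range N, z n ≤ ∑ n ∈ range N, z n / Real.sqrt ((n : ℝ) + 1) * Real.sqrt ((N : ℝ) + 1) := by
        refine Finset.sum_le_sum fun n hn => ?_
        have hn' : n < N := Finset.mem_range.1 hn
        have h1 : 0 < Real.sqrt ((n : ℝ) + 1) := Real.sqrt_pos.2 (by positivity)
        rw [div_mul_eq_mul_div, le_div_iff₀ h1]
        have h2 : Real.sqrt ((n : ℝ) + 1) ≤ Real.sqrt ((N : ℝ) + 1) := by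
          apply Real.sqrt_le_sqrt
          have : (n : ℝ) < N := by exact_mod_cast hn'
          linarith
        exact mul_le_mul_of_nonneg_left h2 (h0 n)
    _ = (∑ n ∈ range N, z n / Real.sqrt ((n : ℝ) + 1)) * Real.sqrt ((N : ℝ) + 1) := by
        rw [Finset.sum_mul]
    _ ≤ B * Real.sqrt ((N : ℝ) + 1) := by gcongr; exact hB N

/-- nonnegative functions with summable means have bounded partial sums almost everywhere -/
lemma ae_sum_bdd {α : Type*} [MeasurableSpace α] {μ : Measure α} {Z : ℕ → α → ℝ}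
    (h0 : ∀ k x, 0 ≤ Z k x) (hi : ∀ k, Integrable (Z k) μ)
    (hs : Summable (fun k => ∫ x, Z k x ∂μ)) :
    ∀ᵐ x ∂μ, ∃ B : ℝ, 0 ≤ B ∧ ∀ K, ∑ k ∈ range K, Z k x ≤ B := by
  have h1 : ∫⁻ x, ∑' k, ENNReal.ofReal (Z k x) ∂μ < ⊤ := by
    rw [lintegral_tsum fun k => (hi k).aestronglyMeasurable.aemeasurable.ennreal_ofReal]
    have h2 : ∀ k, ∫⁻ x, ENNReal.ofReal (Z k x) ∂μ = ENNReal.ofReal (∫ x, Z k x ∂μ) := fun k =>
      (ofReal_integral_eq_lintegral_ofReal (hi k) (Eventually.of_forall (h0 k))).symm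
    simp only [h2]
    rw [← ENNReal.ofReal_tsum_of_nonneg (fun k => integral_nonneg (h0 k)) hs]
    exact ENNReal.ofReal_lt_top
  have h3 : AEMeasurable (fun x => ∑' k, ENNReal.ofReal (Z k x)) μ :=
    AEMeasurable.ennreal_tsum fun k => (hi k).aestronglyMeasurable.aemeasurable.ennreal_ofReal
  filter_upwards [ae_lt_top' h3 h1.ne] with x hx
  refine ⟨(∑' k, ENNReal.ofReal (Z k x)).toReal, ENNReal.toReal_nonneg, fun K => ?_⟩
  have h4 : ∑ k ∈ range K, ENNReal.ofReal (Z k x) ≤ ∑' k, ENNReal.ofReal (Z k x) :=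
    ENNReal.sum_le_tsum _
  calc ∑ k ∈ range K, Z k x = (∑ k ∈ range K, ENNReal.ofReal (Z k x)).toReal := by
        rw [← ENNReal.ofReal_sum_of_nonneg (fun k _ => h0 k x), ENNReal.toReal_ofReal
          (Finset.sum_nonneg fun k _ => h0 k x)]
    _ ≤ _ := ENNReal.toReal_mono hx.ne h4

end Pool.Agent.Y935.RP
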