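import Pool.Agent.Y935.RP.Win
import Pool.Agent.Y935.RP.Gro
import Pool.Agent.Y935.RP.Len

/-!
# Means and covariances of the truncated events
-/

set_option autoImplicit false

open MeasureTheory Set Finset

namespace Pool.Agent.Y935.RP

section

variable {m : ℕ} (lo hi : ℕ → Fin m → ℕ) (r : Fin m → ℕ) (a : ℕ → ℝ)

/-- disjointness of the windows -/
def Dis (lo hi : Fin m → ℕ) : Prop :=
  ∀ i j, i ≠ j → ∀ k, ¬ ((lo i ≤ k ∧ k < hi i) ∧ (lo j ≤ k ∧ k < hi j))

/-- truncated lower ends -/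
noncomputable def tl (n : ℕ) (j : Fin m) : ℕ := max (lo n j) (Lf n)

/-- indicator function of the truncated event -/
noncomputable def X (n : ℕ) (x : ℝ) : ℝ :=
  if ∀ j, ((Finset.Ico (tl lo n j) (hi n j)).filter (fun k => (n : ℤ) ∣ ⌈x * a k⌉)).card = r j
    then 1 else 0

/-- the model mean of the truncated event -/
noncomputable def M (n : ℕ) : ℝ := ∏ j, Q (1 / (n : ℝ)) (r j) (hi n j - tl lo n j) 0

lemma X_nonneg (n : ℕ) (x : ℝ) : 0 ≤ X lo hi r a n x := by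
  unfold X; split_ifs <;> norm_num

lemma X_le (n : ℕ) (x : ℝ) : X lo hi r a n x ≤ 1 := by
  unfold X; split_ifs <;> norm_num

lemma inv_mem {n : ℕ} (hn : 1 ≤ n) : (0 : ℝ) ≤ 1 / n ∧ (1 : ℝ) / n ≤ 1 :=
  ⟨by positivity, by rw [div_le_one (by positivity)]; exact_mod_cast hn⟩

lemma M_nonneg {n : ℕ} (hn : 1 ≤ n) : 0 ≤ M lo hi r n :=
  Finset.prod_nonneg fun _ _ => Q_nonneg (inv_mem hn).1 (inv_mem hn).2 _ _ _

lemma M_le {n : ℕ} (hn : 1 ≤ n) : M lo hi r n ≤ 1 :=
  Finset.prod_le_one (fun _ _ => Q_nonneg (inv_mem hn).1 (inv_mem hn).2 _ _ _)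
    (fun _ _ => Q_le (inv_mem hn).1 (inv_mem hn).2 _ _ _)

lemma dis_tl {n : ℕ} (h : Dis (lo n) (hi n)) : Dis (tl lo n) (hi n) := by
  intro i j hij k hk
  refine h i j hij k ⟨⟨?_, hk.1.2⟩, ?_, hk.2.2⟩
  · exact (le_max_left _ _).trans hk.1.1
  · exact (le_max_left _ _).trans hk.2.1

variable {a} (h1 : ∀ k, 1 ≤ a k) {c : ℝ} (hc : 0 ≤ c)
  (hg : ∀ k : ℕ, (k : ℝ) ^ 4 * a k ≤ c * a (k + 1))
  (hdis : ∀ n, Dis (lo n) (hi n))

include h1 hdis in
lemma X_meas {n : ℕ} (hn : 1 ≤ n) : Measurable (X lo hi r a n) := by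
  obtain ⟨K, hK⟩ : ∃ K, ∀ j, hi n j ≤ K := ⟨∑ j, hi n j, fun j =>
    Finset.single_le_sum (f := hi n) (fun _ _ => Nat.zero_le _) (Finset.mem_univ j)⟩
  have ha : ∀ k, 0 < a k := fun k => lt_of_lt_of_le zero_lt_one (h1 k)
  obtain ⟨C, s0, hend, -, -⟩ := win_ex (tl lo n) (hi n) r hn (dis_tl lo hi (hdis n))
  have e1 : X lo hi r a n = fun x => C.U K (st C s0 a x K) := by
    funext x
    rw [hend a x K hK]
    rfl
  rw [e1]
  refine meas_of_fibre (ss_mono ha (lo := 0) K).measurable fun x y h => ?_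
  rw [st_eq ha C _ (fun k hk => absurd hk (Nat.not_lt_zero k)) h]

include h1 hc hg hdis

/-- the two moment estimates -/
theorem moments : ∃ D : ℝ, 0 ≤ D ∧ ∀ u : ℝ,
    (∀ n : ℕ, 1 ≤ n → |(∫ x in Set.Ioc u (u + 1), X lo hi r a n x) - M lo hi r n| ≤
      D / (Lf n : ℝ) ^ 3) ∧
    (∀ n n' : ℕ, 1 ≤ n → n.Coprime n' → n ≤ n' →
      |(∫ x in Set.Ioc u (u + 1), X lo hi r a n x * X lo hi r a n' x) - M lo hi r n * M lo hi r n'| ≤
      D / (Lf n : ℝ) ^ 3) := by
  obtain ⟨D, hD0, hD⟩ := err_le h1 hc hg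
  have ha : ∀ k, 0 < a k := fun k => lt_of_lt_of_le zero_lt_one (h1 k)
  have hKex : ∀ n, ∃ K, ∀ j, hi n j ≤ K := fun n => ⟨∑ j, hi n j, fun j =>
    Finset.single_le_sum (f := hi n) (fun _ _ => Nat.zero_le _) (Finset.mem_univ j)⟩
  refine ⟨D, hD0, fun u => ⟨fun n hn => ?_, fun n n' hn hco hnn => ?_⟩⟩
  · obtain ⟨K0, hK0⟩ := hKex n
    set K := max K0 (Lf n) with hKdef
    have hK : ∀ j, hi n j ≤ K := fun j => (hK0 j).trans (le_max_left _ _)
    obtain ⟨C, s0, hend, hst, htriv⟩ := win_ex (tl lo n) (hi n) r hn (dis_tl lo hi (hdis n))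
    have htr : ∀ k < Lf n, ∀ s b, C.f k s b = s := htriv _ (fun j => le_max_right _ _)
    have htr' : ∀ k < Lf n, ∀ s b, (triv 1).f k s b = s := fun _ _ _ _ => rfl
    have h2 := FF_all ha hn le_rfl (Nat.coprime_one_right n) C (triv 1)
      s0 () htr htr' K (le_max_right _ _) (u := u) (v := u + 1) (by linarith)
    have e1 : ∀ x, FF C (triv 1) s0 () a K x = X lo hi r a n x := by
      intro x
      unfold FF
      rw [hend a x K hK]
      show _ * (1 : ℝ) = _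
      rw [mul_one]
      rfl
    simp only [e1] at h2
    have e2 : C.U (Lf n) s0 = M lo hi r n := by
      rw [U_const C htr _ _ le_rfl, hst]
      rfl
    have e3 : (triv 1).U (Lf n) () = 1 := rfl
    rw [e2, e3, show u + 1 - u = (1 : ℝ) by ring, one_mul, mul_one] at h2
    exact h2.trans (hD _ _ (two_le_Lf n))
  · obtain ⟨K0, hK0⟩ := hKex n
    obtain ⟨K1, hK1⟩ := hKex n'
    set K := max (max K0 K1) (Lf n) with hKdef
    have hK : ∀ j, hi n j ≤ K := fun j =>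
      (hK0 j).trans ((le_max_left _ _).trans (le_max_left _ _))
    have hK' : ∀ j, hi n' j ≤ K := fun j =>
      (hK1 j).trans ((le_max_right _ _).trans (le_max_left _ _))
    have hn' : 1 ≤ n' := hn.trans hnn
    obtain ⟨C, s0, hend, hst, htriv⟩ := win_ex (tl lo n) (hi n) r hn (dis_tl lo hi (hdis n))
    obtain ⟨C', s0', hend', hst', htriv'⟩ :=
      win_ex (tl lo n') (hi n') r hn' (dis_tl lo hi (hdis n'))
    have htr : ∀ k < Lf n, ∀ s b, C.f k s b = s := htriv _ (fun j => le_max_right _ _)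
    have htr'' : ∀ k < Lf n', ∀ s b, C'.f k s b = s := htriv' _ (fun j => le_max_right _ _)
    have htr' : ∀ k < Lf n, ∀ s b, C'.f k s b = s := fun k hk =>
      htr'' k (lt_of_lt_of_le hk (Lf_mono hnn))
    have h2 := FF_all ha hn hn' hco C C' s0 s0' htr htr' K (le_max_right _ _)
      (u := u) (v := u + 1) (by linarith)
    have e1 : ∀ x, FF C C' s0 s0' a K x = X lo hi r a n x * X lo hi r a n' x := by
      intro x
      unfold FF
      rw [hend a x K hK, hend' a x K hK']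
      rfl
    simp only [e1] at h2
    have e2 : C.U (Lf n) s0 = M lo hi r n := by
      rw [U_const C htr _ _ le_rfl, hst]
      rfl
    have e3 : C'.U (Lf n) s0' = M lo hi r n' := by
      rw [U_const C' htr' _ _ le_rfl, hst']
      rfl
    rw [e2, e3, show u + 1 - u = (1 : ℝ) by ring, one_mul] at h2
    exact h2.trans (hD _ _ (two_le_Lf n))

end

end Pool.Agent.Y935.RP
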