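import Pool.Agent.Y935.RP.Law

/-!
# The almost sure Poisson law
-/

set_option autoImplicit false

open MeasureTheory Set Finset Filter

namespace Pool.Agent.Y935.RP

section

variable {m : ℕ} (lo hi : ℕ → Fin m → ℕ) (r : Fin m → ℕ)

/-- the model means are close to the Poisson probabilities -/
lemma M_poi {lam : Fin m → ℝ} (hl0 : ∀ j, 0 ≤ lam j) (hl1 : ∀ j, lam j ≤ 1) {C0 : ℝ} (hC0 : 0 ≤ C0)
    (hhi : ∀ n : ℕ, n.Prime → ∀ j, hi n j ≤ n)
    (hwin : ∀ n : ℕ, n.Prime → ∀ j, |((hi n j - lo n j : ℕ) : ℝ) - lam j * n| ≤ C0) :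
    ∃ C : ℝ, 0 ≤ C ∧ ∀ n : ℕ, n.Prime →
      |M lo hi r n - ∏ j, poi (lam j) (r j)| ≤ C * ((Lf n : ℝ) / n) := by
  refine ⟨∑ j, (((r j : ℝ) ^ 2 + r j + 2) + ((r j : ℝ) + 1) * (C0 + 1)), by positivity,
    fun n hn => ?_⟩
  have hn1 : 1 ≤ n := hn.one_lt.le
  have hn0 : (0 : ℝ) < n := by positivity
  unfold M
  refine (prod_close Finset.univ (fun j _ => Q_nonneg (inv_mem hn1).1 (inv_mem hn1).2 _ _ _)
    (fun j _ => Q_le (inv_mem hn1).1 (inv_mem hn1).2 _ _ _) (fun j _ => poi_nonneg (hl0 j) _)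
    (fun j _ => poi_le (hl0 j) (hl1 j) _)).trans ?_
  rw [Finset.sum_mul]
  refine Finset.sum_le_sum fun j _ => ?_
  have hL1 : (1 : ℝ) ≤ Lf n := by
    have := two_le_Lf n
    exact_mod_cast (by omega : 1 ≤ Lf n)
  set v : ℕ := hi n j - tl lo n j with hv
  have hvn : v ≤ n := (Nat.sub_le _ _).trans (hhi n hn j)
  have h1 := Q_poi (r j) hn1 hvn
  have hvn' : (v : ℝ) / n ≤ 1 := by
    rw [div_le_one hn0]; exact_mod_cast hvn
  have h2 := poi_lip (x := (v : ℝ) / n) (y := lam j) (by positivity) hvn' (hl0 j) (hl1 j) (r j)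
  have h3 : |(v : ℝ) / n - lam j| ≤ (C0 + Lf n) / n := by
    have e1 : (v : ℝ) / n - lam j = ((v : ℝ) - lam j * n) / n := by field_simp
    rw [e1, abs_div, abs_of_pos hn0]
    gcongr
    have h4 := hwin n hn j
    have h5 : |(v : ℝ) - ((hi n j - lo n j : ℕ) : ℝ)| ≤ Lf n := by
      have h6 : v ≤ hi n j - lo n j := by
        rw [hv]; exact Nat.sub_le_sub_left (le_max_left _ _) _
      have h7 : hi n j - lo n j ≤ v + Lf n := by
        rw [hv, tl]
        have := max_le_add_of_nonneg (Nat.zero_le (lo n j)) (Nat.zero_le (Lf n))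
        omega
      have h6' : (v : ℝ) ≤ ((hi n j - lo n j : ℕ) : ℝ) := by exact_mod_cast h6
      have h7' : ((hi n j - lo n j : ℕ) : ℝ) ≤ v + Lf n := by exact_mod_cast h7
      rw [abs_le]; constructor <;> linarith
    have h8 := abs_add_le ((v : ℝ) - ((hi n j - lo n j : ℕ) : ℝ))
      (((hi n j - lo n j : ℕ) : ℝ) - lam j * n)
    rw [sub_add_sub_cancel] at h8
    linarith
  have h9 := abs_add_le (Q (1 / (n : ℝ)) (r j) v 0 - poi ((v : ℝ) / n) (r j))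
    (poi ((v : ℝ) / n) (r j) - poi (lam j) (r j))
  rw [sub_add_sub_cancel] at h9
  have hr0 : (0 : ℝ) ≤ r j := Nat.cast_nonneg _
  have g1 : ((r j : ℝ) ^ 2 + r j + 2) / n ≤ ((r j : ℝ) ^ 2 + r j + 2) * ((Lf n : ℝ) / n) := by
    rw [← mul_div_assoc]
    gcongr
    nlinarith
  have g2 : ((r j : ℝ) + 1) * |(v : ℝ) / n - lam j| ≤
      ((r j : ℝ) + 1) * (C0 + 1) * ((Lf n : ℝ) / n) := by
    rw [mul_assoc]
    gcongr
    refine h3.trans ?_
    rw [← mul_div_assoc]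
    gcongr
    nlinarith
  calc _ ≤ _ := h9
    _ ≤ ((r j : ℝ) ^ 2 + r j + 2) / n + ((r j : ℝ) + 1) * |(v : ℝ) / n - lam j| :=
      add_le_add h1 h2
    _ ≤ ((r j : ℝ) ^ 2 + r j + 2) * ((Lf n : ℝ) / n) +
      ((r j : ℝ) + 1) * (C0 + 1) * ((Lf n : ℝ) / n) := add_le_add g1 g2
    _ = _ := by ring

variable {a : ℕ → ℝ} (h1 : ∀ k, 1 ≤ a k) {c : ℝ} (hc : 0 ≤ c)
  (hg : ∀ k : ℕ, (k : ℝ) ^ 4 * a k ≤ c * a (k + 1))
  (hdis : ∀ n, Dis (lo n) (hi n))

include h1 hc hg hdis in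
/-- the almost sure law on an interval of length one -/
theorem law (S : ℕ → Prop) [DecidablePred S] (hS : ∀ n, S n → n.Prime) {lam : Fin m → ℝ} (hl0 : ∀ j, 0 ≤ lam j) (hl1 : ∀ j, lam j ≤ 1) {C0 : ℝ} (hC0 : 0 ≤ C0)
    (hhi : ∀ n : ℕ, n.Prime → ∀ j, hi n j ≤ n)
    (hwin : ∀ n : ℕ, n.Prime → ∀ j, |((hi n j - lo n j : ℕ) : ℝ) - lam j * n| ≤ C0) (w : ℕ) :
    ∀ᵐ x ∂(volume.restrict (Set.Ioc (w : ℝ) (w + 1))), ∃ B : ℝ, 0 ≤ B ∧
      ∀ N : ℕ, |∑ n ∈ range N, (if S n then E lo hi r a n x else 0) -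
        (∏ j, poi (lam j) (r j)) * ((range N).filter S).card| ≤
      B * (Real.sqrt ((N : ℝ) + 1) * (1 + Real.log ((N : ℝ) + 1)) ^ 2) := by
  obtain ⟨C, hCn, hC⟩ := M_poi lo hi r hl0 hl1 hC0 hhi hwin
  filter_upwards [Y_ae lo hi r h1 hc hg hdis S hS w, R_ae h1 w] with x hY hR
  obtain ⟨B1, hB1, hY⟩ := hY
  obtain ⟨B2, hB2, hR⟩ := hR
  set G : ℝ := ∑' n : ℕ, (Lf n : ℝ) / n / Real.sqrt ((n : ℝ) + 1) with hG
  have hG0 : 0 ≤ G := tsum_nonneg fun n => by positivity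
  refine ⟨B1 + B2 + C * G, by positivity, fun N => ?_⟩
  set L : ℝ := ∏ j, poi (lam j) (r j) with hL
  have e1 : ∑ n ∈ range N, (if S n then E lo hi r a n x else 0) -
      L * ((range N).filter S).card =
      (∑ n ∈ range N, (if S n then E lo hi r a n x - X lo hi r a n x else 0)) +
      (∑ n ∈ range N, Y lo hi r S a n x) +
      ∑ n ∈ range N, (if S n then M lo hi r n - L else 0) := by
    have e2 : ((range N).filter S).card = ∑ n ∈ range N, (if S n then 1 else 0) := by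
      rw [Finset.card_filter]
    rw [e2]
    push_cast
    rw [Finset.mul_sum, ← Finset.sum_sub_distrib, ← Finset.sum_add_distrib,
      ← Finset.sum_add_distrib]
    refine Finset.sum_congr rfl fun n _ => ?_
    unfold Y
    split_ifs
    · ring
    · ring
  have t1 : |∑ n ∈ range N, (if S n then E lo hi r a n x - X lo hi r a n x else 0)| ≤
      B2 * Real.sqrt ((N : ℝ) + 1) := by
    refine (Finset.abs_sum_le_sum_abs _ _).trans (le_trans ?_ (hR N))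
    refine Finset.sum_le_sum fun n _ => ?_
    have hR0 := R_nonneg a n x
    by_cases hn : S n
    · rw [if_pos hn, if_pos (hS n hn)]
      exact E_X lo hi r a n x
    · rw [if_neg hn, abs_zero]
      split_ifs
      · exact hR0
      · exact le_rfl
  have t3 : |∑ n ∈ range N, (if S n then M lo hi r n - L else 0)| ≤
      C * G * Real.sqrt ((N : ℝ) + 1) := by
    refine (Finset.abs_sum_le_sum_abs _ _).trans ?_
    refine le_trans (b := ∑ n ∈ range N, C * ((Lf n : ℝ) / n)) ?_ ?_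
    · refine Finset.sum_le_sum fun n _ => ?_
      split_ifs with hn
      · exact hC n (hS n hn)
      · rw [abs_zero]; positivity
    · refine sqrt_of_weighted (z := fun n => C * ((Lf n : ℝ) / n)) (fun n => by positivity)
        (fun K => ?_) N
      have e4 : ∑ n ∈ range K, C * ((Lf n : ℝ) / n) / Real.sqrt ((n : ℝ) + 1) =
          C * ∑ n ∈ range K, (Lf n : ℝ) / n / Real.sqrt ((n : ℝ) + 1) := by
        rw [Finset.mul_sum]
        exact Finset.sum_congr rfl fun n _ => by ring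
      rw [e4]
      gcongr
      exact Lf_sum.sum_le_tsum _ fun _ _ => by positivity
  have hN1 : (1 : ℝ) ≤ (N : ℝ) + 1 := by
    have : (0 : ℝ) ≤ N := Nat.cast_nonneg N
    linarith
  have hlog : 0 ≤ Real.log ((N : ℝ) + 1) := Real.log_nonneg hN1
  have hs0 : 0 ≤ Real.sqrt ((N : ℝ) + 1) := Real.sqrt_nonneg _
  have hs : Real.sqrt ((N : ℝ) + 1) ≤
      Real.sqrt ((N : ℝ) + 1) * (1 + Real.log ((N : ℝ) + 1)) ^ 2 := by
    nlinarith [mul_nonneg hs0 hlog, mul_nonneg hs0 (mul_nonneg hlog hlog)]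
  rw [e1]
  have s1 := abs_add_le ((∑ n ∈ range N, (if S n then E lo hi r a n x - X lo hi r a n x else 0)) +
      (∑ n ∈ range N, Y lo hi r S a n x))
      (∑ n ∈ range N, (if S n then M lo hi r n - L else 0))
  have s2 := abs_add_le (∑ n ∈ range N, (if S n then E lo hi r a n x - X lo hi r a n x else 0))
      (∑ n ∈ range N, Y lo hi r S a n x)
  have s3 := hY N
  have s4 : B2 * Real.sqrt ((N : ℝ) + 1) ≤
      B2 * (Real.sqrt ((N : ℝ) + 1) * (1 + Real.log ((N : ℝ) + 1)) ^ 2) := by gcongr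
  have s5 : C * G * Real.sqrt ((N : ℝ) + 1) ≤
      C * G * (Real.sqrt ((N : ℝ) + 1) * (1 + Real.log ((N : ℝ) + 1)) ^ 2) := by gcongr
  calc _ ≤ _ := s1
    _ ≤ (B2 * (Real.sqrt ((N : ℝ) + 1) * (1 + Real.log ((N : ℝ) + 1)) ^ 2) +
        B1 * (Real.sqrt ((N : ℝ) + 1) * (1 + Real.log ((N : ℝ) + 1)) ^ 2)) +
        C * G * (Real.sqrt ((N : ℝ) + 1) * (1 + Real.log ((N : ℝ) + 1)) ^ 2) :=
      add_le_add (s2.trans (add_le_add (t1.trans s4) s3)) (t3.trans s5)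
    _ = _ := by ring

end

/-- almost every positive number -/
lemma ae_pos {P : ℝ → Prop} (h : ∀ w : ℕ, ∀ᵐ x ∂(volume.restrict (Set.Ioc (w : ℝ) (w + 1))), P x) :
    ∀ᵐ x ∂(volume : Measure ℝ), 0 < x → P x := by
  have h1 : ∀ w : ℕ, ∀ᵐ x ∂(volume : Measure ℝ), x ∈ Set.Ioc (w : ℝ) (w + 1) → P x := fun w =>
    (ae_restrict_iff' measurableSet_Ioc).1 (h w)
  filter_upwards [ae_all_iff.2 h1] with x hx hx0
  have h2 : 1 ≤ ⌈x⌉₊ := Nat.one_le_iff_ne_zero.2 (Nat.ceil_pos.2 hx0).ne'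
  have h3 := Nat.ceil_lt_add_one hx0.le
  have h4 := Nat.le_ceil x
  refine hx (⌈x⌉₊ - 1) ⟨?_, ?_⟩
  · rw [Nat.cast_sub h2]; push_cast; linarith
  · rw [Nat.cast_sub h2]; push_cast; linarith

end Pool.Agent.Y935.RP
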