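import Pool.Agent.Y935.RP.Cov
import Pool.Agent.TH888.R.GK

/-!
# The almost sure law
-/

set_option autoImplicit false

open MeasureTheory Set Finset Filter

namespace Pool.Agent.Y935.RP

section

variable {m : ℕ} (lo hi : ℕ → Fin m → ℕ) (r : Fin m → ℕ) (a : ℕ → ℝ)

/-- indicator function of the full event -/
noncomputable def E (n : ℕ) (x : ℝ) : ℝ :=
  if ∀ j, ((Finset.Ico (lo n j) (hi n j)).filter (fun k => (n : ℤ) ∣ ⌈x * a k⌉)).card = r j
    then 1 else 0

/-- the number of divisible bits at small indices -/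
noncomputable def R (n : ℕ) (x : ℝ) : ℝ := ∑ k ∈ range (Lf n), gg n (x * a k)

lemma R_nonneg (n : ℕ) (x : ℝ) : 0 ≤ R a n x := Finset.sum_nonneg fun _ _ => gg_nonneg _ _

lemma E_X (n : ℕ) (x : ℝ) : |E lo hi r a n x - X lo hi r a n x| ≤ R a n x := by
  by_cases h : ∃ k < Lf n, (n : ℤ) ∣ ⌈x * a k⌉
  · obtain ⟨k, hk, hd⟩ := h
    have h1 : (1 : ℝ) ≤ R a n x := by
      have h2 : gg n (x * a k) = 1 := by unfold gg; rw [if_pos hd]
      rw [← h2]
      exact Finset.single_le_sum (f := fun k => gg n (x * a k)) (fun _ _ => gg_nonneg _ _)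
        (Finset.mem_range.2 hk)
    refine le_trans ?_ h1
    unfold E X
    split_ifs <;> norm_num
  · push Not at h
    have h1 : E lo hi r a n x = X lo hi r a n x := by
      have h2 : ∀ j, (Finset.Ico (lo n j) (hi n j)).filter (fun k => (n : ℤ) ∣ ⌈x * a k⌉) =
          (Finset.Ico (tl lo n j) (hi n j)).filter (fun k => (n : ℤ) ∣ ⌈x * a k⌉) := by
        intro j
        ext k
        simp only [Finset.mem_filter, Finset.mem_Ico, tl, max_le_iff]
        constructor
        · rintro ⟨⟨h3, h4⟩, h5⟩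
          refine ⟨⟨⟨h3, ?_⟩, h4⟩, h5⟩
          by_contra h6
          exact h k (by omega) h5
        · rintro ⟨⟨⟨h3, _⟩, h4⟩, h5⟩
          exact ⟨⟨h3, h4⟩, h5⟩
      unfold E X
      simp only [h2]
    rw [h1, sub_self, abs_zero]
    exact R_nonneg _ _ _

variable {a} (h1 : ∀ k, 1 ≤ a k) {c : ℝ} (hc : 0 ≤ c)
  (hg : ∀ k : ℕ, (k : ℝ) ^ 4 * a k ≤ c * a (k + 1))
  (hdis : ∀ n, Dis (lo n) (hi n))

lemma gg_comp_int (n k : ℕ) (s : Set ℝ) (hs : volume s ≠ ⊤) :
    IntegrableOn (fun x => gg n (x * a k)) s := by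
  refine Measure.integrableOn_of_bounded (M := 1) hs
    ((gg_meas n).comp (measurable_id.mul_const _)).aestronglyMeasurable ?_
  exact Filter.Eventually.of_forall fun x => by
    rw [Real.norm_eq_abs, abs_of_nonneg (gg_nonneg _ _)]; exact gg_le _ _

include h1 in
lemma gg_mean {w n : ℕ} (hn : 2 ≤ n) (k : ℕ) :
    ∫ x in Set.Ioc (w : ℝ) (w + 1), gg n (x * a k) ≤ 3 * ((w : ℝ) + 1) / n := by
  have hn0 : (0 : ℝ) < n := by positivity
  have hn2 : (2 : ℝ) ≤ n := by exact_mod_cast hn
  have hw : (0 : ℝ) ≤ w := Nat.cast_nonneg w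
  have hak : 0 < a k := lt_of_lt_of_le zero_lt_one (h1 k)
  by_cases hs : a k * (w + 1) ≤ n - 1
  · have h2 : ∫ x in Set.Ioc (w : ℝ) (w + 1), gg n (x * a k) = 0 := by
      rw [setIntegral_congr_fun (g := fun _ => (0 : ℝ)) measurableSet_Ioc]
      · simp
      · intro x hx
        show gg n (x * a k) = 0
        unfold gg
        rw [if_neg]
        intro hd
        have hx0 : 0 < x := lt_of_le_of_lt hw hx.1
        have hpos : 0 < ⌈x * a k⌉ := Int.ceil_pos.2 (mul_pos hx0 hak)
        have hle : ⌈x * a k⌉ ≤ (n : ℤ) - 1 := by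
          rw [Int.ceil_le]
          push_cast
          calc x * a k ≤ ((w : ℝ) + 1) * a k := by gcongr; exact hx.2
            _ = a k * (w + 1) := by ring
            _ ≤ n - 1 := hs
        have := Int.le_of_dvd hpos hd
        omega
    rw [h2]
    positivity
  · push Not at hs
    have h2 := hh_ordConnected (m := n) (by omega) hak (I := Set.Ioc (w : ℝ) (w + 1))
      Set.ordConnected_Ioc (u := w) (v := w + 1) Set.Ioc_subset_Icc_self
    have h3 : ∫ x in Set.Ioc (w : ℝ) (w + 1), hh n (x * a k) =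
        (∫ x in Set.Ioc (w : ℝ) (w + 1), gg n (x * a k)) - 1 / n := by
      unfold hh
      rw [integral_sub (gg_comp_int n k _ (by simp)) (integrable_const _), setIntegral_const,
        smul_eq_mul]
      simp
    rw [h3] at h2
    have h4 := (abs_le.1 h2).2
    have h5 : 1 / a k ≤ 2 * ((w : ℝ) + 1) / n := by
      rw [div_le_div_iff₀ hak hn0]
      nlinarith
    have h6 : 1 / (n : ℝ) ≤ ((w : ℝ) + 1) / n := by gcongr; linarith
    calc _ ≤ 1 / (n : ℝ) + 1 / a k := by linarith
      _ ≤ ((w : ℝ) + 1) / n + 2 * ((w : ℝ) + 1) / n := add_le_add h6 h5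
      _ = _ := by ring

include h1 in
/-- the small indices are almost surely negligible -/
lemma R_ae (w : ℕ) : ∀ᵐ x ∂(volume.restrict (Set.Ioc (w : ℝ) (w + 1))), ∃ B : ℝ, 0 ≤ B ∧
    ∀ N, ∑ n ∈ range N, (if n.Prime then R a n x else 0) ≤ B * Real.sqrt ((N : ℝ) + 1) := by
  have hRint : ∀ n, IntegrableOn (R a n) (Set.Ioc (w : ℝ) (w + 1)) := fun n =>
    integrable_finsetSum _ fun k _ => gg_comp_int n k _ (by simp)
  have hRmean : ∀ n, 2 ≤ n → ∫ x in Set.Ioc (w : ℝ) (w + 1), R a n x ≤
      3 * ((w : ℝ) + 1) * ((Lf n : ℝ) / n) := by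
    intro n hn
    unfold R
    rw [integral_finsetSum _ fun k _ => gg_comp_int n k _ (by simp)]
    calc _ ≤ ∑ k ∈ range (Lf n), 3 * ((w : ℝ) + 1) / n :=
          Finset.sum_le_sum fun k _ => gg_mean h1 hn k
      _ = _ := by rw [Finset.sum_const, Finset.card_range, nsmul_eq_mul]; ring
  have key := ae_sum_bdd (μ := volume.restrict (Set.Ioc (w : ℝ) (w + 1)))
    (Z := fun n x => (if n.Prime then R a n x else 0) / Real.sqrt ((n : ℝ) + 1))
    (fun n x => by
      have := R_nonneg a n x
      have h2 : 0 ≤ Real.sqrt ((n : ℝ) + 1) := Real.sqrt_nonneg _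
      split_ifs
      · exact div_nonneg this h2
      · simp)
    (fun n => by
      by_cases hn : n.Prime
      · simp only [hn, if_true]
        exact (hRint n).div_const _
      · simp [hn])
    (by
      refine Summable.of_nonneg_of_le (fun n => ?_) (fun n => ?_) (Lf_sum.mul_left (3 * ((w : ℝ) + 1)))
      · refine integral_nonneg fun x => ?_
        show 0 ≤ (if n.Prime then R a n x else 0) / Real.sqrt ((n : ℝ) + 1)
        have := R_nonneg a n x
        have h2 : 0 ≤ Real.sqrt ((n : ℝ) + 1) := Real.sqrt_nonneg _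
        split_ifs
        · exact div_nonneg this h2
        · simp
      · by_cases hn : n.Prime
        · simp only [hn, if_true]
          rw [integral_div]
          have h3 := hRmean n hn.two_le
          have h2 : 0 < Real.sqrt ((n : ℝ) + 1) := Real.sqrt_pos.2 (by positivity)
          calc (∫ x in Set.Ioc (w : ℝ) (w + 1), R a n x) / Real.sqrt ((n : ℝ) + 1) ≤
              (3 * ((w : ℝ) + 1) * ((Lf n : ℝ) / n)) / Real.sqrt ((n : ℝ) + 1) := by gcongr
            _ = _ := by ring
        · simp only [hn, if_false, zero_div, integral_zero]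
          positivity)
  filter_upwards [key] with x hx
  obtain ⟨B, hB0, hB⟩ := hx
  refine ⟨B, hB0, fun N => ?_⟩
  refine sqrt_of_weighted (z := fun n => if n.Prime then R a n x else 0) (fun n => ?_) hB N
  show 0 ≤ (if n.Prime then R a n x else 0)
  have := R_nonneg a n x
  split_ifs
  · exact this
  · exact le_rfl

variable (S : ℕ → Prop) [DecidablePred S] (hS : ∀ n, S n → n.Prime)

/-- the centred variables -/
noncomputable def Y (a : ℕ → ℝ) (n : ℕ) (x : ℝ) : ℝ :=
  if S n then X lo hi r a n x - M lo hi r n else 0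

include hS in
lemma Y_bdd (n : ℕ) (x : ℝ) : |Y lo hi r S a n x| ≤ 1 := by
  unfold Y
  split_ifs with hn
  · have := X_nonneg lo hi r a n x
    have := X_le lo hi r a n x
    have := M_nonneg lo hi r (hS n hn).one_lt.le
    have := M_le lo hi r (hS n hn).one_lt.le
    rw [abs_le]; constructor <;> linarith
  · simp

include h1 hdis hS in
lemma Y_meas (n : ℕ) : Measurable (Y lo hi r S a n) := by
  unfold Y
  by_cases hn : S n
  · simp only [hn, if_true]
    exact (X_meas lo hi r h1 hdis (hS n hn).one_lt.le).sub measurable_const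
  · simp only [hn, if_false]
    exact measurable_const

include h1 hdis hS in
lemma YY_int (n n' : ℕ) (s : Set ℝ) (hs : volume s ≠ ⊤) :
    IntegrableOn (fun x => Y lo hi r S a n x * Y lo hi r S a n' x) s := by
  refine Measure.integrableOn_of_bounded (M := 1) hs
    ((Y_meas lo hi r h1 hdis S hS n).mul (Y_meas lo hi r h1 hdis S hS n')).aestronglyMeasurable ?_
  exact Filter.Eventually.of_forall fun x => by
    rw [Real.norm_eq_abs, abs_mul]
    exact mul_le_one₀ (Y_bdd lo hi r S hS _ _) (abs_nonneg _) (Y_bdd lo hi r S hS _ _)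

include h1 hdis in
lemma X_int {n : ℕ} (hn : 1 ≤ n) (s : Set ℝ) (hs : volume s ≠ ⊤) :
    IntegrableOn (X lo hi r a n) s := by
  refine Measure.integrableOn_of_bounded (M := 1) hs
    (X_meas lo hi r h1 hdis hn).aestronglyMeasurable ?_
  exact Filter.Eventually.of_forall fun x => by
    rw [Real.norm_eq_abs, abs_of_nonneg (X_nonneg _ _ _ _ _ _)]; exact X_le _ _ _ _ _ _

include h1 hdis in
lemma XX_int {n n' : ℕ} (hn : 1 ≤ n) (hn' : 1 ≤ n') (s : Set ℝ) (hs : volume s ≠ ⊤) :
    IntegrableOn (fun x => X lo hi r a n x * X lo hi r a n' x) s := by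
  refine Measure.integrableOn_of_bounded (M := 1) hs
    ((X_meas lo hi r h1 hdis hn).mul (X_meas lo hi r h1 hdis hn')).aestronglyMeasurable ?_
  exact Filter.Eventually.of_forall fun x => by
    rw [Real.norm_eq_abs, abs_mul, abs_of_nonneg (X_nonneg _ _ _ _ _ _),
      abs_of_nonneg (X_nonneg _ _ _ _ _ _)]
    exact mul_le_one₀ (X_le _ _ _ _ _ _) (X_nonneg _ _ _ _ _ _) (X_le _ _ _ _ _ _)

include h1 hc hg hdis hS in
/-- covariances -/
lemma cov : ∃ D : ℝ, 0 ≤ D ∧ ∀ (w n n' : ℕ),
    ∫ x in Set.Ioc (w : ℝ) (w + 1), Y lo hi r S a n x * Y lo hi r S a n' x ≤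
      (if n = n' then 1 else 0) + D * (1 / (Lf n : ℝ) ^ 3) + D * (1 / (Lf n' : ℝ) ^ 3) := by
  obtain ⟨D, hD0, hD⟩ := moments lo hi r h1 hc hg hdis
  refine ⟨3 * D, by positivity, ?_⟩
  -- the ordered case
  have key : ∀ (w n n' : ℕ), n < n' →
      |∫ x in Set.Ioc (w : ℝ) (w + 1), Y lo hi r S a n x * Y lo hi r S a n' x| ≤
        3 * D * (1 / (Lf n : ℝ) ^ 3) := by
    intro w n n' hnn
    have hD3 : 0 ≤ 3 * D * (1 / (Lf n : ℝ) ^ 3) := by positivity
    by_cases hn : S n
    · by_cases hn' : S n'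
      · obtain ⟨hm1, hm2⟩ := hD w
        have hn1 := (hS n hn).one_lt.le
        have hn1' := (hS n' hn').one_lt.le
        have a1 := hm1 n hn1
        have a2 := hm1 n' hn1'
        have a3 := hm2 n n' hn1 ((Nat.coprime_primes (hS n hn) (hS n' hn')).2 hnn.ne) hnn.le
        have a4 : D / (Lf n' : ℝ) ^ 3 ≤ D / (Lf n : ℝ) ^ 3 := by
          have : (0 : ℝ) < Lf n := by
            have := two_le_Lf n
            positivity
          gcongr
          exact_mod_cast Lf_mono hnn.le
        have e1 : ∫ x in Set.Ioc (w : ℝ) (w + 1), Y lo hi r S a n x * Y lo hi r S a n' x =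
            ((∫ x in Set.Ioc (w : ℝ) (w + 1), X lo hi r a n x * X lo hi r a n' x) -
              M lo hi r n * M lo hi r n') -
            M lo hi r n' * ((∫ x in Set.Ioc (w : ℝ) (w + 1), X lo hi r a n x) - M lo hi r n) -
            M lo hi r n * ((∫ x in Set.Ioc (w : ℝ) (w + 1), X lo hi r a n' x) - M lo hi r n') := by
          have e2 : ∀ x, Y lo hi r S a n x * Y lo hi r S a n' x =
              (X lo hi r a n x * X lo hi r a n' x - M lo hi r n' * X lo hi r a n x) -
              (M lo hi r n * X lo hi r a n' x - M lo hi r n * M lo hi r n') := by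
            intro x
            unfold Y
            rw [if_pos hn, if_pos hn']
            ring
          simp only [e2]
          have i1 := XX_int lo hi r h1 hdis hn1 hn1' (Set.Ioc (w : ℝ) (w + 1)) (by simp)
          have i2 := (X_int lo hi r h1 hdis hn1 (Set.Ioc (w : ℝ) (w + 1)) (by simp)).const_mul
            (M lo hi r n')
          have i3 := (X_int lo hi r h1 hdis hn1' (Set.Ioc (w : ℝ) (w + 1)) (by simp)).const_mul
            (M lo hi r n)
          have i4 : IntegrableOn (fun _ : ℝ => M lo hi r n * M lo hi r n')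
              (Set.Ioc (w : ℝ) (w + 1)) := integrable_const _
          have g1 := integral_sub (i1.sub i2) (i3.sub i4)
          have g2 := integral_sub i1 i2
          have g3 := integral_sub i3 i4
          simp only [Pi.sub_apply] at g1
          rw [g1, g2, g3,
            integral_const_mul, integral_const_mul, setIntegral_const, smul_eq_mul]
          have e3 : volume.real (Set.Ioc (w : ℝ) (w + 1)) = 1 := by simp
          rw [e3]
          ring
        rw [e1]
        have b1 := M_nonneg lo hi r hn1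
        have b2 := M_le lo hi r hn1
        have b3 := M_nonneg lo hi r hn1'
        have b4 := M_le lo hi r hn1'
        have c1 : |M lo hi r n' * ((∫ x in Set.Ioc (w : ℝ) (w + 1), X lo hi r a n x) - M lo hi r n)| ≤
            D / (Lf n : ℝ) ^ 3 := by
          rw [abs_mul, abs_of_nonneg b3]
          calc _ ≤ 1 * (D / (Lf n : ℝ) ^ 3) := by gcongr
            _ = _ := one_mul _
        have c2 : |M lo hi r n * ((∫ x in Set.Ioc (w : ℝ) (w + 1), X lo hi r a n' x) - M lo hi r n')| ≤
            D / (Lf n : ℝ) ^ 3 := by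
          rw [abs_mul, abs_of_nonneg b1]
          calc _ ≤ 1 * (D / (Lf n : ℝ) ^ 3) := by gcongr; exact a2.trans a4
            _ = _ := one_mul _
        have d1 := abs_le.1 a3
        have d2 := abs_le.1 c1
        have d3 := abs_le.1 c2
        have e5 : 3 * D * (1 / (Lf n : ℝ) ^ 3) = 3 * (D / (Lf n : ℝ) ^ 3) := by ring
        rw [e5, abs_le]
        constructor <;> linarith [d1.1, d1.2, d2.1, d2.2, d3.1, d3.2]
      · have e1 : ∀ x, Y lo hi r S a n x * Y lo hi r S a n' x = 0 := by
          intro x; unfold Y; rw [if_neg hn', mul_zero]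
        simp only [e1, integral_zero, abs_zero]
        exact hD3
    · have e1 : ∀ x, Y lo hi r S a n x * Y lo hi r S a n' x = 0 := by
        intro x; unfold Y; rw [if_neg hn, zero_mul]
      simp only [e1, integral_zero, abs_zero]
      exact hD3
  intro w n n'
  have p1 : 0 ≤ 3 * D * (1 / (Lf n : ℝ) ^ 3) := by positivity
  have p2 : 0 ≤ 3 * D * (1 / (Lf n' : ℝ) ^ 3) := by positivity
  rcases lt_trichotomy n n' with h | h | h
  · rw [if_neg h.ne]
    have := (abs_le.1 (key w n n' h)).2
    linarith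
  · subst h
    rw [if_pos rfl]
    have h3 : ∫ x in Set.Ioc (w : ℝ) (w + 1), Y lo hi r S a n x * Y lo hi r S a n x ≤ 1 := by
      have h4 : ∫ x in Set.Ioc (w : ℝ) (w + 1), Y lo hi r S a n x * Y lo hi r S a n x ≤
          ∫ _x in Set.Ioc (w : ℝ) (w + 1), (1 : ℝ) := by
        refine setIntegral_mono (YY_int lo hi r h1 hdis S hS n n _ (by simp)) (integrable_const _) ?_
        intro x
        have h5 := Y_bdd lo hi r (a := a) S hS n x
        have h6 : |Y lo hi r S a n x| * |Y lo hi r S a n x| ≤ 1 := mul_le_one₀ h5 (abs_nonneg _) h5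
        rw [abs_mul_abs_self] at h6
        exact h6
      have e3 : volume.real (Set.Ioc (w : ℝ) (w + 1)) = 1 := by simp
      rw [setIntegral_const, e3] at h4
      simpa using h4
    linarith
  · rw [if_neg h.ne']
    have h2 := (abs_le.1 (key w n' n h)).2
    have e1 : ∫ x in Set.Ioc (w : ℝ) (w + 1), Y lo hi r S a n x * Y lo hi r S a n' x =
        ∫ x in Set.Ioc (w : ℝ) (w + 1), Y lo hi r S a n' x * Y lo hi r S a n x := by
      refine integral_congr_ae (Filter.Eventually.of_forall fun x => ?_)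
      exact mul_comm _ _
    rw [e1]
    linarith

include h1 hc hg hdis hS in
/-- the centred sums are almost surely of square root size -/
lemma Y_ae (w : ℕ) : ∀ᵐ x ∂(volume.restrict (Set.Ioc (w : ℝ) (w + 1))), ∃ B : ℝ, 0 ≤ B ∧
    ∀ N : ℕ, |∑ n ∈ range N, Y lo hi r S a n x| ≤
      B * (Real.sqrt ((N : ℝ) + 1) * (1 + Real.log ((N : ℝ) + 1)) ^ 2) := by
  obtain ⟨D, hD0, hD⟩ := cov lo hi r h1 hc hg hdis S hS
  set Z : ℝ := ∑' n, 1 / (Lf n : ℝ) ^ 3 with hZ
  have hZ0 : 0 ≤ Z := tsum_nonneg fun n => by positivity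
  refine Pool.Agent.TH888.R.chain (C := 1 + 2 * (D * Z)) (by positivity) ?_ ?_
  · intro b b' _
    have e1 : ∀ x, (∑ j ∈ Finset.Ico b b', Y lo hi r S a j x) ^ 2 =
        ∑ i ∈ Finset.Ico b b', ∑ j ∈ Finset.Ico b b', Y lo hi r S a i x * Y lo hi r S a j x := by
      intro x; rw [sq, Finset.sum_mul_sum]
    simp only [e1]
    exact integrable_finsetSum _ fun i _ => integrable_finsetSum _ fun j _ =>
      YY_int lo hi r h1 hdis S hS i j _ (by simp)
  · intro b b' hbb
    have e1 : ∀ x, (∑ j ∈ Finset.Ico b b', Y lo hi r S a j x) ^ 2 =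
        ∑ i ∈ Finset.Ico b b', ∑ j ∈ Finset.Ico b b', Y lo hi r S a i x * Y lo hi r S a j x := by
      intro x; rw [sq, Finset.sum_mul_sum]
    simp only [e1]
    rw [integral_finsetSum _ fun i _ => integrable_finsetSum _ fun j _ =>
      YY_int lo hi r h1 hdis S hS i j _ (by simp)]
    have hcard : ((Finset.Ico b b').card : ℝ) = (b' : ℝ) - b := by
      rw [Nat.card_Ico, Nat.cast_sub hbb]
    have hZ1 : ∑ j ∈ Finset.Ico b b', 1 / (Lf j : ℝ) ^ 3 ≤ Z :=
      Lf_cube.sum_le_tsum _ fun _ _ => by positivity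
    calc ∑ i ∈ Finset.Ico b b', ∫ x in Set.Ioc (w : ℝ) (w + 1),
          ∑ j ∈ Finset.Ico b b', Y lo hi r S a i x * Y lo hi r S a j x
        ≤ ∑ i ∈ Finset.Ico b b', (1 + ((b' : ℝ) - b) * (D * (1 / (Lf i : ℝ) ^ 3)) + D * Z) := by
          refine Finset.sum_le_sum fun i hi' => ?_
          rw [integral_finsetSum _ fun j _ => YY_int lo hi r h1 hdis S hS i j _ (by simp)]
          calc _ ≤ ∑ j ∈ Finset.Ico b b', ((if i = j then 1 else 0) + D * (1 / (Lf i : ℝ) ^ 3) +
                D * (1 / (Lf j : ℝ) ^ 3)) := Finset.sum_le_sum fun j _ => hD w i j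
            _ = 1 + ((b' : ℝ) - b) * (D * (1 / (Lf i : ℝ) ^ 3)) +
                D * ∑ j ∈ Finset.Ico b b', (1 / (Lf j : ℝ) ^ 3) := by
                rw [Finset.sum_add_distrib, Finset.sum_add_distrib, Finset.sum_ite_eq, if_pos hi',
                  Finset.sum_const, nsmul_eq_mul, hcard, Finset.mul_sum]
            _ ≤ _ := by gcongr
      _ = ((b' : ℝ) - b) * (1 + D * Z) +
          ((b' : ℝ) - b) * (D * ∑ i ∈ Finset.Ico b b', 1 / (Lf i : ℝ) ^ 3) := by
          rw [Finset.sum_add_distrib, Finset.sum_add_distrib, Finset.sum_const, Finset.sum_const,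
            nsmul_eq_mul, nsmul_eq_mul, hcard, ← Finset.mul_sum, ← Finset.mul_sum]
          ring
      _ ≤ ((b' : ℝ) - b) * (1 + D * Z) + ((b' : ℝ) - b) * (D * Z) := by
          have : 0 ≤ (b' : ℝ) - b := by
            have : (b : ℝ) ≤ b' := by exact_mod_cast hbb
            linarith
          gcongr
      _ = (1 + 2 * (D * Z)) * ((b' : ℝ) - b) := by ring

end

end Pool.Agent.Y935.RP
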