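import Mathlib

/-!
# The centred indicator function of `m ∣ ⌈y⌉` has integrals of modulus at most one over all intervals
-/

set_option autoImplicit false

open MeasureTheory Set

namespace Pool.Agent.Y935.RP

/-- the indicator function of `m ∣ ⌈y⌉` -/
noncomputable def gg (m : ℕ) (y : ℝ) : ℝ := if (m : ℤ) ∣ ⌈y⌉ then 1 else 0

/-- the centred indicator function -/
noncomputable def hh (m : ℕ) (y : ℝ) : ℝ := gg m y - 1 / (m : ℝ)

lemma gg_nonneg (m : ℕ) (y : ℝ) : 0 ≤ gg m y := by
  unfold gg; split_ifs <;> norm_num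

lemma gg_le (m : ℕ) (y : ℝ) : gg m y ≤ 1 := by
  unfold gg; split_ifs <;> norm_num

lemma gg_meas (m : ℕ) : Measurable (gg m) := by
  unfold gg
  refine Measurable.ite ?_ measurable_const measurable_const
  exact (Int.measurable_ceil (R := ℝ)) (MeasurableSet.of_discrete (s := {z : ℤ | (m : ℤ) ∣ z}))

lemma hh_meas (m : ℕ) : Measurable (hh m) := (gg_meas m).sub measurable_const

lemma abs_hh_le {m : ℕ} (hm : 1 ≤ m) (y : ℝ) : |hh m y| ≤ 1 := by
  have h1 : (0 : ℝ) ≤ 1 / m := by positivity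
  have h2 : (1 : ℝ) / m ≤ 1 := by
    rw [div_le_one (by positivity)]; exact_mod_cast hm
  unfold hh gg
  rw [abs_le]
  split_ifs <;> constructor <;> linarith

lemma gg_int (m : ℕ) (u v : ℝ) : IntervalIntegrable (gg m) volume u v := by
  refine (intervalIntegrable_const (c := (1 : ℝ))).mono_fun (gg_meas m).aestronglyMeasurable ?_
  refine Filter.Eventually.of_forall fun y => ?_
  show ‖gg m y‖ ≤ ‖(1 : ℝ)‖
  rw [Real.norm_eq_abs, abs_of_nonneg (gg_nonneg m y)]
  simpa using gg_le m y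

lemma gg_per (m : ℕ) : Function.Periodic (gg m) (m : ℝ) := by
  intro y
  unfold gg
  have : ⌈y + (m : ℝ)⌉ = ⌈y⌉ + (m : ℤ) := by
    have := Int.ceil_add_intCast y (m : ℤ)
    simp only [Int.cast_natCast] at this
    exact this
  have h2 : ((m : ℤ) ∣ ⌈y + (m : ℝ)⌉) ↔ ((m : ℤ) ∣ ⌈y⌉) := by rw [this, dvd_add_self_right]
  simp only [h2]

lemma gg_period_int {m : ℕ} (hm : 1 ≤ m) : ∫ y in (0 : ℝ)..m, gg m y = 1 := by
  have hsplit : ∫ y in (0 : ℝ)..m, gg m y =
      (∫ y in (0 : ℝ)..((m : ℝ) - 1), gg m y) + ∫ y in ((m : ℝ) - 1)..m, gg m y :=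
    (intervalIntegral.integral_add_adjacent_intervals (gg_int _ _ _) (gg_int _ _ _)).symm
  have hm' : (1 : ℝ) ≤ m := by exact_mod_cast hm
  have h1 : ∫ y in (0 : ℝ)..((m : ℝ) - 1), gg m y = 0 := by
    rw [intervalIntegral.integral_of_le (by linarith), setIntegral_congr_fun
      (g := fun _ => (0 : ℝ)) measurableSet_Ioc]
    · simp
    · intro y hy
      unfold gg
      rw [if_neg]
      intro hd
      have hpos : 0 < ⌈y⌉ := Int.ceil_pos.2 hy.1
      have hle : ⌈y⌉ ≤ (m : ℤ) - 1 := by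
        rw [Int.ceil_le]; push_cast; exact hy.2
      have := Int.le_of_dvd hpos hd
      omega
  have h2 : ∫ y in ((m : ℝ) - 1)..m, gg m y = 1 := by
    rw [intervalIntegral.integral_of_le (by linarith), setIntegral_congr_fun
      (g := fun _ => (1 : ℝ)) measurableSet_Ioc]
    · simp
    · intro y hy
      unfold gg
      rw [if_pos]
      have : ⌈y⌉ = (m : ℤ) := by
        rw [Int.ceil_eq_iff]; push_cast; exact ⟨hy.1, hy.2⟩
      rw [this]
  rw [hsplit, h1, h2, zero_add]

lemma gg_period_int' {m : ℕ} (hm : 1 ≤ m) (t : ℝ) : ∫ y in t..(t + m), gg m y = 1 := by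
  have h := (gg_per m).intervalIntegral_add_eq t 0
  rw [zero_add] at h
  rw [h, gg_period_int hm]

lemma gg_many {m : ℕ} (hm : 1 ≤ m) (t : ℝ) (n : ℕ) :
    ∫ y in t..(t + n * m), gg m y = n := by
  induction n with
  | zero => simp
  | succ n ih =>
    have h1 : ∫ y in t..(t + ((n + 1 : ℕ) : ℝ) * m), gg m y =
        (∫ y in t..(t + n * m), gg m y) + ∫ y in (t + n * m)..((t + n * m) + m), gg m y := by
      rw [intervalIntegral.integral_add_adjacent_intervals (gg_int _ _ _) (gg_int _ _ _)]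
      congr 1
      push_cast
      ring
    rw [h1, ih, gg_period_int' hm]
    push_cast
    ring

lemma gg_mono_int {m : ℕ} {u v w : ℝ} (h2 : v ≤ w) :
    ∫ y in u..v, gg m y ≤ ∫ y in u..w, gg m y := by
  rw [← intervalIntegral.integral_add_adjacent_intervals (gg_int m u v) (gg_int m v w)]
  have := intervalIntegral.integral_nonneg h2 (f := gg m) (μ := volume) fun y _ => gg_nonneg m y
  linarith

lemma hh_interval {m : ℕ} (hm : 1 ≤ m) {u v : ℝ} (huv : u ≤ v) : |∫ y in u..v, hh m y| ≤ 1 := by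
  have hm' : (0 : ℝ) < m := by exact_mod_cast hm
  have e1 : ∫ y in u..v, hh m y = (∫ y in u..v, gg m y) - (v - u) / m := by
    unfold hh
    rw [intervalIntegral.integral_sub (gg_int _ _ _) intervalIntegrable_const,
      intervalIntegral.integral_const, smul_eq_mul]
    ring
  set n : ℕ := ⌊(v - u) / m⌋₊ with hn
  have hx : 0 ≤ (v - u) / m := div_nonneg (by linarith) hm'.le
  have hn1 : (n : ℝ) ≤ (v - u) / m := Nat.floor_le hx
  have hn2 : (v - u) / m < n + 1 := Nat.lt_floor_add_one _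
  have hn1' : (n : ℝ) * m ≤ v - u := by rwa [le_div_iff₀ hm'] at hn1
  have hn2' : v - u < (n + 1) * m := by rwa [div_lt_iff₀ hm'] at hn2
  have e2 : ∫ y in u..v, gg m y = (∫ y in u..(v - n * m), gg m y) + n := by
    have h3 := gg_many hm (v - n * m) n
    rw [sub_add_cancel] at h3
    rw [← intervalIntegral.integral_add_adjacent_intervals (gg_int m u (v - n * m))
      (gg_int m (v - n * m) v), h3]
  have h4 : 0 ≤ ∫ y in u..(v - n * m), gg m y :=
    intervalIntegral.integral_nonneg (by linarith) fun y _ => gg_nonneg m y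
  have h5 : ∫ y in u..(v - n * m), gg m y ≤ 1 := by
    rw [← gg_period_int' hm u]
    exact gg_mono_int (by linarith)
  rw [e1, e2, abs_le]
  constructor <;> linarith

lemma hh_scaled {m : ℕ} (hm : 1 ≤ m) {a : ℝ} (ha : 0 < a) {u v : ℝ} (huv : u ≤ v) :
    |∫ x in u..v, hh m (x * a)| ≤ 1 / a := by
  rw [intervalIntegral.integral_comp_mul_right (fun y => hh m y) ha.ne', smul_eq_mul, abs_mul,
    abs_of_pos (inv_pos.2 ha), one_div]
  have := hh_interval hm (u := u * a) (v := v * a) (by gcongr)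
  calc a⁻¹ * |∫ x in (u * a)..(v * a), hh m x| ≤ a⁻¹ * 1 := by gcongr
    _ = a⁻¹ := mul_one _

/-- over every bounded interval the integral of the centred indicator function is small -/
lemma hh_ordConnected {m : ℕ} (hm : 1 ≤ m) {a : ℝ} (ha : 0 < a) {I : Set ℝ} (hI : I.OrdConnected)
    {u v : ℝ} (hb : I ⊆ Icc u v) : |∫ x in I, hh m (x * a)| ≤ 1 / a := by
  rcases I.eq_empty_or_nonempty with rfl | hne
  · simp only [Measure.restrict_empty, integral_zero_measure, abs_zero]
    positivity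
  have hbb : BddBelow I := ⟨u, fun x hx => (hb hx).1⟩
  have hba : BddAbove I := ⟨v, fun x hx => (hb hx).2⟩
  have hle : sInf I ≤ sSup I := csInf_le_csSup hne hbb hba
  have h1 : Ioo (sInf I) (sSup I) ⊆ I := by
    intro x hx
    obtain ⟨y, hy, hyx⟩ := exists_lt_of_csInf_lt hne hx.1
    obtain ⟨z, hz, hxz⟩ := exists_lt_of_lt_csSup hne hx.2
    exact hI.out hy hz ⟨hyx.le, hxz.le⟩
  have h2 : I ⊆ Icc (sInf I) (sSup I) := fun x hx => ⟨csInf_le hbb hx, le_csSup hba hx⟩
  have hae : I =ᵐ[volume] Ioc (sInf I) (sSup I) := by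
    have e1 : Ioo (sInf I) (sSup I) =ᵐ[volume] Ioc (sInf I) (sSup I) := Ioo_ae_eq_Ioc
    have e2 : Ioc (sInf I) (sSup I) =ᵐ[volume] Icc (sInf I) (sSup I) := Ioc_ae_eq_Icc
    refine Filter.EventuallyLE.antisymm ?_ ?_
    · exact (LE.le.eventuallyLE h2).trans e2.symm.le
    · exact e1.symm.le.trans (LE.le.eventuallyLE h1)
  rw [setIntegral_congr_set hae, ← intervalIntegral.integral_of_le hle]
  exact hh_scaled hm ha hle

end Pool.Agent.Y935.RP
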