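import Pool.Agent.Y935.RP.Bin
import Pool.Agent.Y935.RP.Couple

/-!
# The automaton counting the bits in several windows
-/

set_option autoImplicit false

open MeasureTheory Set Finset

namespace Pool.Agent.Y935.RP

/-- the value function is constant while the automaton does not move -/
lemma U_const {p : ℕ} (C : Chain p) {lo : ℕ} (hlo : ∀ k < lo, ∀ s b, C.f k s b = s) (s : C.S) :
    ∀ k ≤ lo, C.U k s = C.U 0 s := by
  intro k
  induction k with
  | zero => intro _; rfl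
  | succ k ih =>
    intro hk
    rw [← ih (by omega), C.hr k s, hlo k (by omega), hlo k (by omega)]
    ring

/-- the trivial automaton -/
def triv (p : ℕ) : Chain p where
  S := Unit
  f _ _ _ := ()
  U _ _ := 1
  U0 _ _ := zero_le_one
  U1 _ _ := le_rfl
  hr _ _ := by ring

section

variable {m : ℕ} (lo hi r : Fin m → ℕ)

/-- window counting step -/
def wf (k : ℕ) (s : Fin m → ℕ) (b : Bool) : Fin m → ℕ :=
  fun j => if b = true ∧ lo j ≤ k ∧ k < hi j then s j + 1 else s j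

/-- window value function -/
noncomputable def wU (t : ℝ) (k : ℕ) (s : Fin m → ℕ) : ℝ :=
  ∏ j, Q t (r j) (hi j - max k (lo j)) (s j)

lemma w_factor (t : ℝ) {k : ℕ} {s : Fin m → ℕ} {j : Fin m} (h : ¬ (lo j ≤ k ∧ k < hi j)) (b : Bool) :
    Q t (r j) (hi j - max (k + 1) (lo j)) (wf lo hi k s b j) =
      Q t (r j) (hi j - max k (lo j)) (s j) := by
  have h1 : wf lo hi k s b j = s j := by
    unfold wf; rw [if_neg (fun hh => h hh.2)]
  have h2 : hi j - max (k + 1) (lo j) = hi j - max k (lo j) := by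
    rcases lt_or_ge k (lo j) with h3 | h3
    · rw [max_eq_right (by omega), max_eq_right (by omega)]
    · have h4 : hi j ≤ k := by
        by_contra h5
        exact h ⟨h3, by omega⟩
      rw [max_eq_left (by omega), max_eq_left (by omega)]
      omega
  rw [h1, h2]

lemma w_hr (hdis : ∀ i j, i ≠ j → ∀ k, ¬ ((lo i ≤ k ∧ k < hi i) ∧ (lo j ≤ k ∧ k < hi j)))
    (t : ℝ) (k : ℕ) (s : Fin m → ℕ) :
    wU lo hi r t k s = (1 - t) * wU lo hi r t (k + 1) (wf lo hi k s false) +
      t * wU lo hi r t (k + 1) (wf lo hi k s true) := by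
  by_cases hex : ∃ j0, lo j0 ≤ k ∧ k < hi j0
  · obtain ⟨j0, hj0⟩ := hex
    have hoth : ∀ j ∈ Finset.univ.erase j0, ¬ (lo j ≤ k ∧ k < hi j) := by
      intro j hj hh
      exact hdis j j0 (Finset.ne_of_mem_erase hj) k ⟨hh, hj0⟩
    unfold wU
    rw [← Finset.mul_prod_erase _ _ (Finset.mem_univ j0),
      ← Finset.mul_prod_erase _ (fun j => Q t (r j) (hi j - max (k + 1) (lo j))
        (wf lo hi k s false j)) (Finset.mem_univ j0),
      ← Finset.mul_prod_erase _ (fun j => Q t (r j) (hi j - max (k + 1) (lo j))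
        (wf lo hi k s true j)) (Finset.mem_univ j0),
      Finset.prod_congr rfl (fun j hj => w_factor lo hi r t (s := s) (hoth j hj) false),
      Finset.prod_congr rfl (fun j hj => w_factor lo hi r t (s := s) (hoth j hj) true)]
    have e1 : wf lo hi k s false j0 = s j0 := by unfold wf; simp
    have e2 : wf lo hi k s true j0 = s j0 + 1 := by unfold wf; simp [hj0]
    have e3 : hi j0 - max k (lo j0) = (hi j0 - max (k + 1) (lo j0)) + 1 := by
      rw [max_eq_left (by omega), max_eq_left (by omega)]; omega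
    rw [e1, e2, e3, Q]
    ring
  · push Not at hex
    have hoth : ∀ j : Fin m, ¬ (lo j ≤ k ∧ k < hi j) := fun j hh => by
      have := hex j hh.1; omega
    have e1 : ∀ b, wU lo hi r t (k + 1) (wf lo hi k s b) = wU lo hi r t k s := by
      intro b
      unfold wU
      exact Finset.prod_congr rfl (fun j _ => w_factor lo hi r t (hoth j) b)
    rw [e1, e1]; ring

/-- the automaton counting the bits in the windows -/
noncomputable def win (p : ℕ) (hp : 1 ≤ p)
    (hdis : ∀ i j, i ≠ j → ∀ k, ¬ ((lo i ≤ k ∧ k < hi i) ∧ (lo j ≤ k ∧ k < hi j))) : Chain p where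
  S := Fin m → ℕ
  f := wf lo hi
  U := wU lo hi r (1 / (p : ℝ))
  U0 k s := Finset.prod_nonneg fun j _ => Q_nonneg (by positivity)
    (by rw [div_le_one (by positivity)]; exact_mod_cast hp) _ _ _
  U1 k s := Finset.prod_le_one (fun j _ => Q_nonneg (by positivity)
    (by rw [div_le_one (by positivity)]; exact_mod_cast hp) _ _ _)
    (fun j _ => Q_le (by positivity)
    (by rw [div_le_one (by positivity)]; exact_mod_cast hp) _ _ _)
  hr := w_hr lo hi r hdis _

variable {p : ℕ} (hp : 1 ≤ p)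
  (hdis : ∀ i j, i ≠ j → ∀ k, ¬ ((lo i ≤ k ∧ k < hi i) ∧ (lo j ≤ k ∧ k < hi j)))

lemma win_st (s0 : Fin m → ℕ) (a : ℕ → ℝ) (x : ℝ) (K : ℕ) (j : Fin m) :
    (st (win lo hi r p hp hdis) s0 a x K : Fin m → ℕ) j = s0 j +
      ((Finset.range K).filter (fun k => (lo j ≤ k ∧ k < hi j) ∧ (p : ℤ) ∣ ⌈x * a k⌉)).card := by
  induction K with
  | zero => simp [st]
  | succ K ih =>
    have e1 : (st (win lo hi r p hp hdis) s0 a x (K + 1) : Fin m → ℕ) j =
        wf lo hi K (st (win lo hi r p hp hdis) s0 a x K) (decide ((p : ℤ) ∣ ⌈x * a K⌉)) j := rfl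
    rw [e1, Finset.range_add_one, Finset.filter_insert]
    unfold wf
    by_cases h : (lo j ≤ K ∧ K < hi j) ∧ (p : ℤ) ∣ ⌈x * a K⌉
    · rw [if_pos h, Finset.card_insert_of_notMem (by simp), if_pos ⟨by simp [h.2], h.1⟩, ih]
      ring
    · rw [if_neg h, if_neg (fun hh => h ⟨hh.2, by simpa using hh.1⟩), ih]

/-- the value at a late time is the indicator of the event -/
lemma win_end (a : ℕ → ℝ) (x : ℝ) {K : ℕ} (hK : ∀ j, hi j ≤ K) :
    (win lo hi r p hp hdis).U K (st (win lo hi r p hp hdis) (fun _ => 0 : Fin m → ℕ) a x K) =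
      if ∀ j, ((Finset.Ico (lo j) (hi j)).filter (fun k => (p : ℤ) ∣ ⌈x * a k⌉)).card = r j
        then 1 else 0 := by
  have e0 : (win lo hi r p hp hdis).U K (st (win lo hi r p hp hdis) (fun _ => 0 : Fin m → ℕ) a x K) =
    ∏ j, Q (1 / (p : ℝ)) (r j) (hi j - max K (lo j))
      ((st (win lo hi r p hp hdis) (fun _ => 0 : Fin m → ℕ) a x K : Fin m → ℕ) j) := rfl
  rw [e0]
  have e1 : ∀ j, Q (1 / (p : ℝ)) (r j) (hi j - max K (lo j))
      ((st (win lo hi r p hp hdis) (fun _ => 0 : Fin m → ℕ) a x K : Fin m → ℕ) j) =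
      if ((Finset.Ico (lo j) (hi j)).filter (fun k => (p : ℤ) ∣ ⌈x * a k⌉)).card = r j
        then 1 else 0 := by
    intro j
    have e2 : hi j - max K (lo j) = 0 := by
      have := hK j
      have := le_max_left K (lo j)
      omega
    rw [e2, Q, win_st, zero_add]
    have e3 : (Finset.range K).filter (fun k => (lo j ≤ k ∧ k < hi j) ∧ (p : ℤ) ∣ ⌈x * a k⌉) =
        (Finset.Ico (lo j) (hi j)).filter (fun k => (p : ℤ) ∣ ⌈x * a k⌉) := by
      ext k
      simp only [Finset.mem_filter, Finset.mem_range, Finset.mem_Ico]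
      constructor
      · rintro ⟨_, h1, h2⟩; exact ⟨h1, h2⟩
      · rintro ⟨h1, h2⟩; exact ⟨lt_of_lt_of_le h1.2 (hK j), h1, h2⟩
    rw [e3]
  rw [Finset.prod_congr rfl (fun j _ => e1 j)]
  by_cases h : ∀ j, ((Finset.Ico (lo j) (hi j)).filter (fun k => (p : ℤ) ∣ ⌈x * a k⌉)).card = r j
  · rw [if_pos h]
    exact Finset.prod_eq_one fun j _ => if_pos (h j)
  · rw [if_neg h]
    push Not at h
    obtain ⟨j, hj⟩ := h
    exact Finset.prod_eq_zero (Finset.mem_univ j) (if_neg hj)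

lemma win_start : (win lo hi r p hp hdis).U 0 (fun _ => 0 : Fin m → ℕ) =
    ∏ j, Q (1 / (p : ℝ)) (r j) (hi j - lo j) 0 := by
  have e0 : (win lo hi r p hp hdis).U 0 (fun _ => 0 : Fin m → ℕ) =
    ∏ j, Q (1 / (p : ℝ)) (r j) (hi j - max 0 (lo j)) 0 := rfl
  rw [e0]
  simp

lemma win_triv {L : ℕ} (hL : ∀ j, L ≤ lo j) :
    ∀ k < L, ∀ s b, (win lo hi r p hp hdis).f k s b = s := by
  intro k hk s b
  funext j
  have e1 : (win lo hi r p hp hdis).f k s b j = wf lo hi k s b j := rfl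
  rw [e1]
  unfold wf
  rw [if_neg]
  rintro ⟨_, h1, _⟩
  have := hL j
  omega

include hp hdis in
/-- the automaton, packaged -/
lemma win_ex : ∃ (C : Chain p) (s0 : C.S),
    (∀ (a : ℕ → ℝ) (x : ℝ) (K : ℕ), (∀ j, hi j ≤ K) → C.U K (st C s0 a x K) =
      if ∀ j, ((Finset.Ico (lo j) (hi j)).filter (fun k => (p : ℤ) ∣ ⌈x * a k⌉)).card = r j
        then 1 else 0) ∧
    C.U 0 s0 = ∏ j, Q (1 / (p : ℝ)) (r j) (hi j - lo j) 0 ∧
    ∀ L : ℕ, (∀ j, L ≤ lo j) → ∀ k < L, ∀ s b, C.f k s b = s :=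
  ⟨win lo hi r p hp hdis, (fun _ => 0 : Fin m → ℕ),
    fun a x _ hK => win_end lo hi r hp hdis a x hK, win_start lo hi r hp hdis,
    fun _ hL => win_triv lo hi r hp hdis hL⟩

end

/-- products of numbers between 0 and 1 -/
lemma prod_close {ι : Type*} (s : Finset ι) {A B : ι → ℝ} (hA0 : ∀ i ∈ s, 0 ≤ A i)
    (hA1 : ∀ i ∈ s, A i ≤ 1) (hB0 : ∀ i ∈ s, 0 ≤ B i) (hB1 : ∀ i ∈ s, B i ≤ 1) :
    |∏ i ∈ s, A i - ∏ i ∈ s, B i| ≤ ∑ i ∈ s, |A i - B i| := by
  classical
  induction s using Finset.induction_on with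
  | empty => simp
  | insert i s hi ih =>
    rw [Finset.prod_insert hi, Finset.prod_insert hi, Finset.sum_insert hi]
    have ih' := ih (fun j hj => hA0 j (Finset.mem_insert_of_mem hj))
      (fun j hj => hA1 j (Finset.mem_insert_of_mem hj))
      (fun j hj => hB0 j (Finset.mem_insert_of_mem hj))
      (fun j hj => hB1 j (Finset.mem_insert_of_mem hj))
    have e1 : A i * ∏ j ∈ s, A j - B i * ∏ j ∈ s, B j =
      A i * (∏ j ∈ s, A j - ∏ j ∈ s, B j) + (A i - B i) * ∏ j ∈ s, B j := by ring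
    rw [e1]
    have h1 : |A i| ≤ 1 := by
      rw [abs_of_nonneg (hA0 i (Finset.mem_insert_self _ _))]
      exact hA1 i (Finset.mem_insert_self _ _)
    have h2 : |∏ j ∈ s, B j| ≤ 1 := by
      rw [abs_of_nonneg (Finset.prod_nonneg fun j hj => hB0 j (Finset.mem_insert_of_mem hj))]
      exact Finset.prod_le_one (fun j hj => hB0 j (Finset.mem_insert_of_mem hj))
        (fun j hj => hB1 j (Finset.mem_insert_of_mem hj))
    calc |A i * (∏ j ∈ s, A j - ∏ j ∈ s, B j) + (A i - B i) * ∏ j ∈ s, B j|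
        ≤ |A i| * |∏ j ∈ s, A j - ∏ j ∈ s, B j| + |A i - B i| * |∏ j ∈ s, B j| := by
          rw [← abs_mul, ← abs_mul]; exact abs_add_le _ _
      _ ≤ 1 * (∑ j ∈ s, |A j - B j|) + |A i - B i| * 1 := by gcongr
      _ = |A i - B i| + ∑ j ∈ s, |A j - B j| := by ring

end Pool.Agent.Y935.RP
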